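import Mathlib

set_option autoImplicit false

/-!
# A bound for the vertices of a polyhedron with integer rows
-/

namespace Pool.Agent.J4.H81.Shadow

open Set

/-- the linear form with integer coefficients -/
def dz {n : ℕ} (a : Fin n → ℤ) (x : Fin n → ℝ) : ℝ := ∑ j, (a j : ℝ) * x j

variable {n : ℕ}

theorem dz_add_right (a : Fin n → ℤ) (x y : Fin n → ℝ) : dz a (x + y) = dz a x + dz a y := by
  simp [dz, mul_add, Finset.sum_add_distrib]

theorem dz_sub_right (a : Fin n → ℤ) (x y : Fin n → ℝ) : dz a (x - y) = dz a x - dz a y := by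
  simp [dz, mul_sub, Finset.sum_sub_distrib]

theorem dz_smul_right (a : Fin n → ℤ) (t : ℝ) (x : Fin n → ℝ) : dz a (t • x) = t * dz a x := by
  simp only [dz, Pi.smul_apply, smul_eq_mul, Finset.mul_sum]
  exact Finset.sum_congr rfl fun _ _ => by ring

theorem continuous_dz (a : Fin n → ℤ) : Continuous (dz a) := by
  unfold dz
  fun_prop

theorem abs_dz_le {a : Fin n → ℤ} {x : Fin n → ℝ} {E M : ℝ} (hE : 0 ≤ E)
    (ha : ∀ j, |(a j : ℝ)| ≤ E) (hx : ∀ j, |x j| ≤ M) : |dz a x| ≤ n * (E * M) := by
  calc |dz a x| ≤ ∑ j, |(a j : ℝ) * x j| := Finset.abs_sum_le_sum_abs _ _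
    _ ≤ ∑ _j : Fin n, E * M := by
        apply Finset.sum_le_sum
        intro j _
        rw [abs_mul]
        exact mul_le_mul (ha j) (hx j) (abs_nonneg _) hE
    _ = n * (E * M) := by simp

/-- at an extreme point the tight rows have trivial kernel -/
theorem tight_ker {ρ : Type} [Finite ρ] (A : ρ → Fin n → ℤ) (β : ρ → ℝ) (w x : Fin n → ℝ)
    (hx : x ∈ Set.extremePoints ℝ {x | ∀ r, dz (A r) (x - w) ≤ β r}) (d : Fin n → ℝ)
    (hd : ∀ r, dz (A r) (x - w) = β r → dz (A r) d = 0) : d = 0 := by
  have h1 : ∀ᶠ ε : ℝ in nhds 0, ∀ r, dz (A r) (x + ε • d - w) ≤ β r := by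
    rw [Filter.eventually_all]
    intro r
    rcases eq_or_lt_of_le (hx.1 r) with h | h
    · refine Filter.Eventually.of_forall fun ε => ?_
      rw [add_sub_right_comm, dz_add_right, dz_smul_right, hd r h, mul_zero, add_zero, h]
    · have hc : Continuous fun ε : ℝ => dz (A r) (x + ε • d - w) :=
        (continuous_dz _).comp (by fun_prop)
      have h2 : dz (A r) (x + (0 : ℝ) • d - w) < β r := by simpa using h
      exact (hc.continuousAt.eventually_lt continuousAt_const h2).mono fun _ h => h.le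
  obtain ⟨δ, hδ, hball⟩ := Metric.eventually_nhds_iff.1 h1
  have h2 : ∀ r, dz (A r) (x + (δ / 2) • d - w) ≤ β r := hball (by
    rw [dist_zero_right, Real.norm_eq_abs, abs_of_pos (by positivity)]; linarith)
  have h3 : ∀ r, dz (A r) (x + (-(δ / 2)) • d - w) ≤ β r := hball (by
    rw [dist_zero_right, Real.norm_eq_abs, abs_neg, abs_of_pos (by positivity)]; linarith)
  have h4 := hx.2 h2 h3 ⟨1 / 2, 1 / 2, by norm_num, by norm_num, by norm_num, by
    ext i
    simp only [Pi.add_apply, Pi.smul_apply, smul_eq_mul]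
    ring⟩
  have h5 : (δ / 2) • d = 0 := by simpa using h4
  rcases smul_eq_zero.1 h5 with h6 | h6
  · linarith
  · exact h6

theorem exists_basis {ρ : Type} (A : ρ → Fin n → ℤ) (S : Set ρ)
    (hS : ∀ d : Fin n → ℝ, (∀ r ∈ S, dz (A r) d = 0) → d = 0) :
    ∃ f : Fin n → ρ, (∀ i, f i ∈ S) ∧
      (Matrix.of fun i j => (A (f i) j : ℝ)).det ≠ 0 := by
  set R : Set (Fin n → ℝ) := (fun r j => (A r j : ℝ)) '' S with hR
  have hspan : Submodule.span ℝ R = ⊤ := by
    by_contra hne
    obtain ⟨φ, hφ, hker⟩ := Submodule.exists_le_ker_of_lt_top _ (lt_top_iff_ne_top.2 hne)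
    apply hφ
    have hrep : ∀ a : Fin n → ℝ, φ a = ∑ j, a j * φ (fun k => if j = k then 1 else 0) := by
      intro a
      rw [LinearMap.pi_apply_eq_sum_univ]
      rfl
    have h0 : (fun j => φ (fun k => if j = k then 1 else 0)) = (0 : Fin n → ℝ) := by
      apply hS
      intro r hr
      have h1 : (fun j => (A r j : ℝ)) ∈ LinearMap.ker φ :=
        hker (Submodule.subset_span ⟨r, hr, rfl⟩)
      rw [LinearMap.mem_ker, hrep] at h1
      exact h1
    apply LinearMap.ext
    intro a
    rw [hrep, LinearMap.zero_apply]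
    apply Finset.sum_eq_zero
    intro j _
    have := congrFun h0 j
    simp only [Pi.zero_apply] at this
    rw [this, mul_zero]
  obtain ⟨f, hf, hfs, hfi⟩ := Submodule.exists_fun_fin_finrank_span_eq ℝ R
  have hrank : Module.finrank ℝ (Submodule.span ℝ R) = n := by
    rw [hspan, finrank_top, Module.finrank_fin_fun]
  set e : Fin n ≃ Fin (Module.finrank ℝ (Submodule.span ℝ R)) := finCongr hrank.symm
  choose g hg hgf using fun i => hf (e i)
  refine ⟨g, hg, ?_⟩
  have h1 : LinearIndependent ℝ (Matrix.of fun i j => (A (g i) j : ℝ)).row := by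
    have h2 := hfi.comp e e.injective
    have h3 : (Matrix.of fun i j => (A (g i) j : ℝ)).row = f ∘ e := by
      ext i j
      simp only [Matrix.row, Matrix.of_apply, Function.comp]
      rw [← hgf i]
    rw [h3]
    exact h2
  rw [Matrix.linearIndependent_rows_iff_isUnit, Matrix.isUnit_iff_isUnit_det] at h1
  exact h1.ne_zero

theorem extreme_bound {ρ : Type} [Finite ρ] (A : ρ → Fin n → ℤ) (β : ρ → ℝ) (E b : ℝ)
    (hE : 1 ≤ E) (hb : 0 ≤ b) (hA : ∀ r j, |(A r j : ℝ)| ≤ E) (hβ : ∀ r, |β r| ≤ b)
    (w x : Fin n → ℝ)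
    (hx : x ∈ Set.extremePoints ℝ {x | ∀ r, dz (A r) (x - w) ≤ β r}) (j : Fin n) :
    |(x - w) j| ≤ n.factorial * E ^ n * b := by
  obtain ⟨f, hf, hdet⟩ := exists_basis A {r | dz (A r) (x - w) = β r} fun d hd =>
    tight_ker A β w x hx d hd
  set M : Matrix (Fin n) (Fin n) ℝ := Matrix.of fun i j => (A (f i) j : ℝ) with hM
  have hMv : M.mulVec (x - w) = fun i => β (f i) := by
    ext i
    exact hf i
  rcases eq_or_lt_of_le hb with hb0 | hb0
  · -- all right hand sides are zero
    have h1 : M.mulVec (x - w) = 0 := by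
      rw [hMv]
      ext i
      have := hβ (f i)
      rw [← hb0] at this
      simpa using this
    have h2 : x - w = 0 := Matrix.eq_zero_of_mulVec_eq_zero hdet h1
    rw [h2, ← hb0]
    simp
  · have hdet1 : 1 ≤ |M.det| := by
      have h1 : M = (Matrix.of fun i j => A (f i) j).map (Int.castRingHom ℝ) := by
        ext i j
        simp [hM]
      have h2 : M.det = ((Matrix.of fun i j => A (f i) j).det : ℤ) := by
        rw [h1, ← RingHom.mapMatrix_apply, ← RingHom.map_det]
        simp
      rw [h2] at hdet ⊢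
      have h3 : (Matrix.of fun i j => A (f i) j).det ≠ 0 := by
        intro h
        apply hdet
        rw [h]
        simp
      have h4 := Int.one_le_abs h3
      exact_mod_cast h4
    set γ : Fin n → ℝ := fun i => β (f i) / b with hγ
    have hγ1 : ∀ i, |γ i| ≤ 1 := by
      intro i
      rw [hγ, abs_div, abs_of_pos hb0]
      exact (div_le_one hb0).2 (hβ _)
    have h1 : M.det • (x - w) = b • M.cramer γ := by
      have h2 : M.mulVec (M.det • (x - w)) = M.mulVec (b • M.cramer γ) := by
        rw [Matrix.mulVec_smul, Matrix.mulVec_smul, Matrix.mulVec_cramer, hMv]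
        ext i
        simp only [Pi.smul_apply, smul_eq_mul, hγ]
        field_simp
      have h3 : M.mulVec (M.det • (x - w) - b • M.cramer γ) = 0 := by
        rw [Matrix.mulVec_sub, h2, sub_self]
      exact sub_eq_zero.1 (Matrix.eq_zero_of_mulVec_eq_zero hdet h3)
    have h2 : |M.cramer γ j| ≤ n.factorial * E ^ n := by
      rw [Matrix.cramer_apply]
      have := Matrix.det_le (A := M.updateCol j γ) (abv := AbsoluteValue.abs) (x := E) (by
        intro i k
        rw [Matrix.updateCol_apply]
        split_ifs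
        · exact (hγ1 i).trans hE
        · exact hA _ _)
      simpa [Fintype.card_fin, nsmul_eq_mul] using this
    have h3 : |M.det| * |(x - w) j| = b * |M.cramer γ j| := by
      have := congrFun h1 j
      simp only [Pi.smul_apply, smul_eq_mul] at this
      rw [← abs_mul, this, abs_mul, abs_of_pos hb0]
    calc |(x - w) j| ≤ |M.det| * |(x - w) j| := le_mul_of_one_le_left (abs_nonneg _) hdet1
      _ = b * |M.cramer γ j| := h3
      _ ≤ b * (n.factorial * E ^ n) := mul_le_mul_of_nonneg_left h2 hb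
      _ = n.factorial * E ^ n * b := by ring

end Pool.Agent.J4.H81.Shadow
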