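import Mathlib

set_option autoImplicit false

/-!
# The recursions behind the Goldfarb cube
-/

namespace Pool.Agent.J4.H81.Shadow

open Finset

/-- the sign of a bit -/
def sg (b : Bool) : ℝ := cond b 1 (-1)

theorem sg_sq (b : Bool) : sg b * sg b = 1 := by cases b <;> simp [sg]

theorem sg_mul_sg (b : Bool) (x : ℝ) : sg b * (sg b * x) = x := by
  rw [← mul_assoc, sg_sq, one_mul]

theorem abs_sg (b : Bool) : |sg b| = 1 := by cases b <;> simp [sg]

theorem abs_sg_mul (b : Bool) (x : ℝ) : |sg b * x| = |x| := by rw [abs_mul, abs_sg, one_mul]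

/-- a sequence with a new first term -/
def ncons (a : ℝ) (f : ℕ → ℝ) : ℕ → ℝ
  | 0 => a
  | k + 1 => f k

@[simp] theorem ncons_zero (a : ℝ) (f : ℕ → ℝ) : ncons a f 0 = a := rfl

@[simp] theorem ncons_succ (a : ℝ) (f : ℕ → ℝ) (k : ℕ) : ncons a f (k + 1) = f k := rfl

theorem ncons_one (a : ℝ) (f : ℕ → ℝ) : ncons a f 1 = f 0 := rfl

theorem exists_ratio (d : ℕ) : ∀ s : ℕ → Bool, ∃ r : ℕ → ℝ, (∀ k, 1 / 3 ≤ r k ∧ r k ≤ 1) ∧
    ∀ k, k + 1 < d → 1 - 2 * r k = sg (s (k + 1)) * r (k + 1) * r k := by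
  induction d with
  | zero => exact fun s => ⟨fun _ => 1, fun _ => by norm_num, fun k hk => by omega⟩
  | succ d ih =>
    intro s
    obtain ⟨r, hr, hr'⟩ := ih fun k => s (k + 1)
    have h0 : 1 ≤ 2 + sg (s 1) * r 0 ∧ 2 + sg (s 1) * r 0 ≤ 3 := by
      have := hr 0
      cases s 1 <;> simp only [sg, cond_true, cond_false] <;> constructor <;> linarith
    refine ⟨ncons (1 / (2 + sg (s 1) * r 0)) r, fun k => ?_, fun k hk => ?_⟩
    · cases k with
      | zero =>
        rw [ncons_zero]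
        constructor
        · exact one_div_le_one_div_of_le (by linarith) h0.2
        · rw [div_le_one (by linarith)]; exact h0.1
      | succ k => exact hr k
    · cases k with
      | zero =>
        have : (2 + sg (s 1) * r 0) ≠ 0 := by linarith
        rw [zero_add, ncons_zero, ncons_one]
        field_simp
        ring
      | succ k => exact hr' k (by omega)

/-- the recursion for the dual solution -/
noncomputable def vseq (ρ : ℝ) (y : ℕ → ℝ) : ℕ → ℝ
  | 0 => ρ
  | 1 => 1 + y 1 - 2 * |ρ|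
  | k + 2 => y (k + 2) - 2 * |vseq ρ y (k + 1)| + |vseq ρ y k|

theorem exists_rho (d : ℕ) (s : ℕ → Bool) (y : ℕ → ℝ)
    (hy : ∀ k, 1 ≤ k → k < d → |y k| ≤ 1 / 9 ^ d) :
    ∃ ρ : ℝ, -1 ≤ ρ ∧ ρ ≤ 1 ∧ ∀ k < d, 0 < sg (s k) * vseq ρ y k ∧ |vseq ρ y k| < 2 := by
  obtain ⟨r, hr, hr'⟩ := exists_ratio d s
  set a : ℕ → ℝ := fun k => ∏ i ∈ range (k + 1), r i with ha
  have hrpos : ∀ k, 0 < r k := fun k => lt_of_lt_of_le (by norm_num) (hr k).1
  have hapos : ∀ k, 0 < a k := fun k => prod_pos fun i _ => hrpos i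
  have ha1 : ∀ k, a k ≤ 1 := fun k => prod_le_one (fun i _ => (hrpos i).le) fun i _ => (hr i).2
  have ha3 : ∀ k, 1 / 3 ^ (k + 1) ≤ a k := by
    intro k
    calc (1 : ℝ) / 3 ^ (k + 1) = ∏ i ∈ range (k + 1), (1 / 3 : ℝ) := by simp
      _ ≤ a k := prod_le_prod (fun _ _ => by norm_num) fun i _ => (hr i).1
  have hasucc : ∀ k, a (k + 1) = a k * r (k + 1) := fun k => by
    simp only [ha]; rw [prod_range_succ]
  set ρ : ℝ := sg (s 0) * r 0 with hρ
  have ha0 : a 0 = r 0 := by simp [ha]
  set ε : ℝ := 1 / 9 ^ d with hε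
  have hεpos : 0 < ε := by positivity
  have habs : ∀ k, |sg (s k) * a k| = a k := fun k => by
    rw [abs_sg_mul, abs_of_pos (hapos k)]
  have key : ∀ k, (k < d → |vseq ρ y k - sg (s k) * a k| ≤ 3 ^ k * ε) ∧
      (k + 1 < d → |vseq ρ y (k + 1) - sg (s (k + 1)) * a (k + 1)| ≤ 3 ^ (k + 1) * ε) := by
    intro k
    induction k with
    | zero =>
      constructor
      · intro _
        rw [vseq, hρ, ha0, sub_self, abs_zero]
        positivity
      · intro h1
        have h2 := hr' 0 h1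
        have h3 : vseq ρ y (0 + 1) - sg (s (0 + 1)) * a (0 + 1) = y 1 := by
          rw [zero_add, vseq, hρ, abs_sg_mul, abs_of_pos (hrpos 0), hasucc 0, ha0]
          simp only [zero_add] at h2
          linear_combination h2
        rw [h3]
        have := hy 1 le_rfl h1
        calc |y 1| ≤ ε := this
          _ ≤ 3 ^ (0 + 1) * ε := by norm_num; linarith
    | succ k ih =>
      refine ⟨ih.2, fun h1 => ?_⟩
      have e1 := ih.1 (by omega)
      have e2 := ih.2 (by omega)
      have h2 := hr' (k + 1) h1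
      have h3 : |(|vseq ρ y (k + 1)|) - a (k + 1)| ≤ 3 ^ (k + 1) * ε := by
        rw [← habs (k + 1)]
        exact (abs_abs_sub_abs_le _ _).trans e2
      have h4 : |(|vseq ρ y k|) - a k| ≤ 3 ^ k * ε := by
        rw [← habs k]
        exact (abs_abs_sub_abs_le _ _).trans e1
      have h5 : vseq ρ y (k + 1 + 1) - sg (s (k + 1 + 1)) * a (k + 1 + 1) =
          y (k + 2) - 2 * (|vseq ρ y (k + 1)| - a (k + 1)) + (|vseq ρ y k| - a k) := by
        rw [show k + 1 + 1 = k + 2 from rfl, vseq, hasucc (k + 1), hasucc k]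
        rw [show k + 1 + 1 = k + 2 from rfl] at h2
        linear_combination (a k) * h2
      have h6 := hy (k + 2) (by omega) h1
      rw [h5]
      calc |y (k + 2) - 2 * (|vseq ρ y (k + 1)| - a (k + 1)) + (|vseq ρ y k| - a k)|
          ≤ |y (k + 2)| + 2 * |(|vseq ρ y (k + 1)|) - a (k + 1)| + |(|vseq ρ y k|) - a k| := by
            refine (abs_add_le _ _).trans (add_le_add_left ?_ _)
            refine (abs_sub _ _).trans (add_le_add_right ?_ _)
            rw [abs_mul, abs_two]
        _ ≤ ε + 2 * (3 ^ (k + 1) * ε) + 3 ^ k * ε := by linarith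
        _ ≤ 3 ^ (k + 1 + 1) * ε := by
            have h7 : (1 : ℝ) ≤ 3 ^ k := one_le_pow₀ (by norm_num)
            have h8 : ε ≤ 3 ^ k * ε := by nlinarith
            have h9 : (3 : ℝ) ^ (k + 1 + 1) = 9 * 3 ^ k := by ring
            have h10 : (3 : ℝ) ^ (k + 1) = 3 * 3 ^ k := by ring
            rw [h9, h10]
            nlinarith
  refine ⟨ρ, ?_, ?_, fun k hk => ?_⟩
  · have := abs_le.1 (show |ρ| ≤ 1 by rw [hρ, abs_sg_mul, abs_of_pos (hrpos 0)]; exact (hr 0).2)
    exact this.1
  · have := abs_le.1 (show |ρ| ≤ 1 by rw [hρ, abs_sg_mul, abs_of_pos (hrpos 0)]; exact (hr 0).2)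
    exact this.2
  · have h1 := (key k).1 hk
    have h2 : 3 ^ k * ε < a k := by
      refine lt_of_lt_of_le ?_ (ha3 k)
      rw [hε, mul_one_div, div_lt_div_iff₀ (by positivity) (by positivity), one_mul, ← pow_add]
      calc (3 : ℝ) ^ (k + (k + 1)) < 3 ^ (2 * d) := by
            apply pow_lt_pow_right₀ (by norm_num); omega
        _ = 9 ^ d := by rw [pow_mul]; norm_num
    have h3 : |sg (s k) * vseq ρ y k - a k| ≤ 3 ^ k * ε := by
      have : sg (s k) * vseq ρ y k - a k = sg (s k) * (vseq ρ y k - sg (s k) * a k) := by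
        rw [mul_sub, sg_mul_sg]
      rw [this, abs_sg_mul]
      exact h1
    have h4 := abs_le.1 h3
    refine ⟨by linarith, ?_⟩
    have h5 : |vseq ρ y k| ≤ |sg (s k) * a k| + |vseq ρ y k - sg (s k) * a k| := by
      have := abs_sub_abs_le_abs_sub (vseq ρ y k) (sg (s k) * a k)
      linarith
    rw [habs] at h5
    have := ha1 k
    linarith

theorem vseq_identity (ρ : ℝ) (y X : ℕ → ℝ) (e : ℕ) :
    ∑ k ∈ range (e + 2), (vseq ρ y k * X k + 2 * |vseq ρ y k| * X (k + 1) -
      |vseq ρ y k| * X (k + 2)) =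
      ρ * X 0 + X 1 + ∑ k ∈ range (e + 1), y (k + 1) * X (k + 1) +
        (2 * |vseq ρ y (e + 1)| * X (e + 2) - |vseq ρ y (e + 1)| * X (e + 3) -
          |vseq ρ y e| * X (e + 2)) := by
  induction e with
  | zero =>
    simp only [sum_range_succ, sum_range_zero, zero_add, vseq]
    ring
  | succ e ih =>
    rw [sum_range_succ, ih, sum_range_succ (fun k => y (k + 1) * X (k + 1)) (e + 1)]
    have : vseq ρ y (e + 2) = y (e + 2) - 2 * |vseq ρ y (e + 1)| + |vseq ρ y e| := by
      rw [vseq]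
    rw [show e + 1 + 1 = e + 2 from rfl, show e + 1 + 2 = e + 3 from rfl,
      show e + 2 + 1 = e + 3 from rfl, show e + 2 + 2 = e + 4 from rfl,
      show e + 1 + 3 = e + 4 from rfl]
    linear_combination X (e + 2) * this

theorem exists_U (d : ℕ) : ∀ s : ℕ → Bool, ∃ U : ℕ → ℝ, (∀ k, d ≤ k → U k = 0) ∧
    (∀ k < d, U k = sg (s k) * (5 ^ (d - k) - 2 * U (k + 1) + U (k + 2))) ∧
    (∀ k, |U k| ≤ 2 * 5 ^ d / 5 ^ k) ∧ ∀ k < d, 0 < sg (s k) * U k := by
  induction d with
  | zero =>
    exact fun s => ⟨fun _ => 0, fun _ _ => rfl, fun k hk => by omega, fun k => by simp; positivity,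
      fun k hk => by omega⟩
  | succ d ih =>
    intro s
    obtain ⟨U, h1, h2, h3, h4⟩ := ih fun k => s (k + 1)
    have b0 := abs_le.1 (h3 0)
    have b1 := abs_le.1 (h3 1)
    have p5 : (0 : ℝ) < 5 ^ d := by positivity
    simp only [pow_zero, div_one, pow_one] at b0 b1
    refine ⟨ncons (sg (s 0) * (5 ^ (d + 1) - 2 * U 0 + U 1)) U, ?_, ?_, ?_, ?_⟩
    · intro k hk
      cases k with
      | zero => omega
      | succ k => exact h1 k (by omega)
    · intro k hk
      cases k with
      | zero => rfl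
      | succ k =>
        have := h2 k (by omega)
        simp only [Nat.add_sub_add_right]
        exact this
    · intro k
      cases k with
      | zero =>
        simp only [pow_zero, div_one, ncons_zero]
        rw [abs_sg_mul, abs_le, pow_succ]
        constructor <;> linarith
      | succ k =>
        have := h3 k
        rw [ncons_succ, pow_succ (5 : ℝ) d, pow_succ (5 : ℝ) k]
        calc |U k| ≤ 2 * 5 ^ d / 5 ^ k := this
          _ = 2 * (5 ^ d * 5) / (5 ^ k * 5) := by field_simp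
    · intro k hk
      cases k with
      | zero =>
        rw [ncons_zero, sg_mul_sg, pow_succ]
        linarith
      | succ k => exact h4 k (by omega)

end Pool.Agent.J4.H81.Shadow
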