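import Pool.Agent.J4.H81.Shadow.Cramer
import Pool.Agent.J4.H81.Shadow.Seq

set_option autoImplicit false

/-!
# The frustum over the Goldfarb cube

Dimension `e + 3`; the coordinates are `X 0, …, X (e + 1)` and the last coordinate.
-/

namespace Pool.Agent.J4.H81.Shadow

open Finset

theorem dz_add_left {n : ℕ} (a b : Fin n → ℤ) (x : Fin n → ℝ) : dz (a + b) x = dz a x + dz b x := by
  simp [dz, add_mul, Finset.sum_add_distrib]

theorem dz_sub_left {n : ℕ} (a b : Fin n → ℤ) (x : Fin n → ℝ) : dz (a - b) x = dz a x - dz b x := by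
  simp [dz, sub_mul, Finset.sum_sub_distrib]

theorem dz_zsmul_left {n : ℕ} (m : ℤ) (a : Fin n → ℤ) (x : Fin n → ℝ) :
    dz (m • a) x = m * dz a x := by
  simp only [dz, Pi.smul_apply, smul_eq_mul, Int.cast_mul, Finset.mul_sum]
  exact Finset.sum_congr rfl fun _ _ => by ring

/-- the sign of a bit, an integer -/
def sgz (b : Bool) : ℤ := cond b 1 (-1)

theorem sgz_cast (b : Bool) : ((sgz b : ℤ) : ℝ) = sg b := by cases b <;> simp [sgz, sg]

def ex (e k : ℕ) : Fin (e + 3) → ℤ := fun j => if (j : ℕ) = k ∧ k < e + 2 then 1 else 0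

def exi (e : ℕ) : Fin (e + 3) → ℤ := fun j => if (j : ℕ) = e + 2 then 1 else 0

/-- the coordinate `X k`, zero for `k ≥ e + 2` -/
noncomputable def cX {e : ℕ} (p : Fin (e + 3) → ℝ) (k : ℕ) : ℝ :=
  if h : k < e + 2 then p ⟨k, by omega⟩ else 0

theorem dz_ex {e : ℕ} (k : ℕ) (p : Fin (e + 3) → ℝ) : dz (ex e k) p = cX p k := by
  unfold dz ex cX
  split_ifs with h
  · rw [Finset.sum_eq_single (⟨k, by omega⟩ : Fin (e + 3))]
    · simp [h]
    · intro j _ hj
      have : (j : ℕ) ≠ k := fun h' => hj (Fin.ext h')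
      simp [this]
    · intro h'; exact absurd (mem_univ _) h'
  · apply Finset.sum_eq_zero
    intro j _
    simp [h]

theorem dz_exi {e : ℕ} (p : Fin (e + 3) → ℝ) : dz (exi e) p = p (Fin.last _) := by
  unfold dz exi
  rw [Finset.sum_eq_single (Fin.last (e + 2))]
  · simp
  · intro j _ hj
    have : (j : ℕ) ≠ e + 2 := fun h' => hj (Fin.ext h')
    simp [this]
  · intro h'; exact absurd (mem_univ _) h'

def gg (e : ℕ) : ℤ := 2 * (e + 2) + 1

def lam (e : ℕ) : ℤ := 2 * 5 ^ (e + 2) + 1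

def hh (e : ℕ) : ℤ := gg e * lam e

theorem gg_pos (e : ℕ) : 0 < gg e := by unfold gg; positivity

theorem lam_pos (e : ℕ) : 0 < lam e := by unfold lam; positivity

theorem hh_pos (e : ℕ) : 0 < hh e := mul_pos (gg_pos e) (lam_pos e)

/-- the rows -/
def row (e : ℕ) : Option (Fin (e + 2) × Bool) → Fin (e + 3) → ℤ
  | none => exi e - ex e 1
  | some (k, s) => exi e - ex e 1 +
      gg e • (sgz s • ex e k + (2 : ℤ) • ex e (k + 1) - ex e (k + 2))

/-- the right hand sides -/
def rhs (e : ℕ) : Option (Fin (e + 2) × Bool) → ℤ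
  | none => hh e
  | some (k, s) => gg e * 5 ^ (e + 2 - (k : ℕ)) + hh e + if (k : ℕ) = 0 then sgz s * hh e else 0

theorem dz_none {e : ℕ} (p : Fin (e + 3) → ℝ) :
    dz (row e none) p = p (Fin.last _) - cX p 1 := by
  rw [row, dz_sub_left, dz_exi, dz_ex]

theorem dz_some {e : ℕ} (k : Fin (e + 2)) (s : Bool) (p : Fin (e + 3) → ℝ) :
    dz (row e (some (k, s))) p = p (Fin.last _) - cX p 1 +
      gg e * (sg s * cX p k + 2 * cX p (k + 1) - cX p (k + 2)) := by
  simp only [row, dz_sub_left, dz_add_left, dz_zsmul_left, dz_exi, dz_ex, sgz_cast]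
  push_cast
  ring

theorem rhs_pos {e : ℕ} (r : Option (Fin (e + 2) × Bool)) : 1 ≤ rhs e r := by
  have h1 := gg_pos e
  have h2 := hh_pos e
  rcases r with _ | ⟨k, s⟩
  · exact h2
  · have h3 : (1 : ℤ) ≤ 5 ^ (e + 2 - (k : ℕ)) := one_le_pow₀ (by norm_num)
    have h4 : gg e * 1 ≤ gg e * 5 ^ (e + 2 - (k : ℕ)) := mul_le_mul_of_nonneg_left h3 h1.le
    simp only [rhs]
    split_ifs
    · cases s
      · simp only [sgz, cond_false]; linarith
      · simp only [sgz, cond_true]; linarith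
    · linarith

theorem rhs_le {e : ℕ} (r : Option (Fin (e + 2) × Bool)) :
    rhs e r ≤ gg e * 5 ^ (e + 2) + 2 * hh e := by
  have h1 := gg_pos e
  have h2 := hh_pos e
  rcases r with _ | ⟨k, s⟩
  · have h3 : (0 : ℤ) ≤ gg e * 5 ^ (e + 2) := by positivity
    simp only [rhs]; linarith
  · have h3 : (5 : ℤ) ^ (e + 2 - (k : ℕ)) ≤ 5 ^ (e + 2) :=
      pow_le_pow_right₀ (by norm_num) (Nat.sub_le _ _)
    have h4 := mul_le_mul_of_nonneg_left h3 h1.le
    simp only [rhs]
    split_ifs
    · cases s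
      · simp only [sgz, cond_false]; linarith
      · simp only [sgz, cond_true]; linarith
    · linarith

/-- the vertex with coordinates `U` -/
noncomputable def uvec (e : ℕ) (U : ℕ → ℝ) : Fin (e + 3) → ℝ := fun j =>
  if (j : ℕ) = e + 2 then hh e + U 1 else if (j : ℕ) = 0 then U 0 + lam e else U j

theorem uvec_last (e : ℕ) (U : ℕ → ℝ) : uvec e U (Fin.last _) = hh e + U 1 := by
  simp [uvec]

theorem cX_uvec (e : ℕ) (U : ℕ → ℝ) (hU : ∀ k, e + 2 ≤ k → U k = 0) (k : ℕ) :
    cX (uvec e U) k = U k + if k = 0 then (lam e : ℝ) else 0 := by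
  unfold cX uvec
  by_cases h1 : k < e + 2
  · rw [dif_pos h1]
    by_cases h2 : k = 0
    · subst h2
      simp
    · simp only [h2, if_false, add_zero]
      rw [if_neg (by omega)]
  · rw [dif_neg h1, hU k (by omega), if_neg (by omega), add_zero]

theorem row_uvec {e : ℕ} {s : ℕ → Bool} {U : ℕ → ℝ} (hU : ∀ k, e + 2 ≤ k → U k = 0)
    (hU' : ∀ k < e + 2, U k = sg (s k) * (5 ^ (e + 2 - k) - 2 * U (k + 1) + U (k + 2)))
    (k : Fin (e + 2)) : dz (row e (some (k, s k))) (uvec e U) = rhs e (some (k, s k)) := by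
  have h1 := hU' k k.2
  have h2 : sg (s k) * U k = 5 ^ (e + 2 - (k : ℕ)) - 2 * U (k + 1) + U (k + 2) := by
    have := congrArg (fun t => sg (s k) * t) h1
    simp only [sg_mul_sg] at this
    exact this
  rw [dz_some, uvec_last, cX_uvec _ _ hU, cX_uvec _ _ hU, cX_uvec _ _ hU, cX_uvec _ _ hU]
  simp only [rhs]
  rcases Nat.eq_zero_or_pos (k : ℕ) with h0 | h0
  · rw [if_neg one_ne_zero, if_pos h0, if_neg (by omega), if_neg (by omega), if_pos h0]
    push_cast
    rw [sgz_cast, show ((hh e : ℤ) : ℝ) = gg e * lam e by unfold hh; push_cast; ring]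
    linear_combination (gg e : ℝ) * h2
  · rw [if_neg one_ne_zero, if_neg (by omega), if_neg (by omega), if_neg (by omega),
      if_neg (by omega)]
    push_cast
    linear_combination (gg e : ℝ) * h2

theorem none_uvec {e : ℕ} {U : ℕ → ℝ} (hU : ∀ k, e + 2 ≤ k → U k = 0) :
    dz (row e none) (uvec e U) = rhs e none := by
  rw [dz_none, uvec_last, cX_uvec _ _ hU, if_neg one_ne_zero]
  simp [rhs]

theorem feas_uvec {e : ℕ} {s : ℕ → Bool} {U : ℕ → ℝ} (hU : ∀ k, e + 2 ≤ k → U k = 0)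
    (hU' : ∀ k < e + 2, U k = sg (s k) * (5 ^ (e + 2 - k) - 2 * U (k + 1) + U (k + 2)))
    (hU'' : ∀ k < e + 2, 0 < sg (s k) * U k) (r : Option (Fin (e + 2) × Bool)) :
    dz (row e r) (uvec e U) ≤ rhs e r := by
  rcases r with _ | ⟨k, b⟩
  · exact (none_uvec hU).le
  · by_cases hb : b = s k
    · subst hb
      exact (row_uvec hU hU' k).le
    · have hb' : sg b = - sg (s k) := by
        cases b <;> cases hs : s k <;> simp_all [sg]
      have hb'' : sgz b = - sgz (s k) := by
        cases b <;> cases hs : s k <;> simp_all [sgz]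
      have h1 := hU' k k.2
      have h2 : sg (s k) * U k = 5 ^ (e + 2 - (k : ℕ)) - 2 * U (k + 1) + U (k + 2) := by
        have := congrArg (fun t => sg (s k) * t) h1
        simp only [sg_mul_sg] at this
        exact this
      have h3 := hU'' k k.2
      have hg : (0 : ℝ) < gg e := by exact_mod_cast gg_pos e
      have h4 := mul_pos hg h3
      rw [dz_some, uvec_last, cX_uvec _ _ hU, cX_uvec _ _ hU, cX_uvec _ _ hU, cX_uvec _ _ hU]
      simp only [rhs]
      rcases Nat.eq_zero_or_pos (k : ℕ) with h0 | h0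
      · rw [if_neg one_ne_zero, if_pos h0, if_neg (by omega), if_neg (by omega), if_pos h0, hb',
          hb'']
        push_cast
        rw [sgz_cast, show ((hh e : ℤ) : ℝ) = gg e * lam e by unfold hh; push_cast; ring]
        nlinarith
      · rw [if_neg one_ne_zero, if_neg (by omega), if_neg (by omega), if_neg (by omega),
          if_neg (by omega), hb']
        push_cast
        nlinarith

/-- the objective function -/
noncomputable def obj {e : ℕ} (ρ : ℝ) (y : ℕ → ℝ) (q : Fin (e + 3) → ℝ) : ℝ :=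
  q (Fin.last _) + ρ * cX q 0 + ∑ k ∈ range (e + 1), y (k + 1) * cX q (k + 1)

theorem cX_big {e : ℕ} (q : Fin (e + 3) → ℝ) {k : ℕ} (hk : e + 2 ≤ k) : cX q k = 0 := by
  unfold cX; rw [dif_neg (by omega)]

/-- the dual certificate -/
theorem certificate {e : ℕ} {s : ℕ → Bool} {ρ : ℝ} {y : ℕ → ℝ}
    (hv : ∀ k < e + 2, 0 < sg (s k) * vseq ρ y k) (q : Fin (e + 3) → ℝ) :
    (gg e : ℝ) * obj ρ y q = (gg e - ∑ k : Fin (e + 2), |vseq ρ y k|) * dz (row e none) q +
      ∑ k : Fin (e + 2), |vseq ρ y k| * dz (row e (some (k, s k))) q := by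
  have h1 := vseq_identity ρ y (cX q) e
  rw [cX_big q (k := e + 2) le_rfl, cX_big q (k := e + 3) (by omega), mul_zero, mul_zero,
    mul_zero, sub_zero, sub_zero, add_zero] at h1
  have h2 : ∀ k < e + 2, vseq ρ y k = |vseq ρ y k| * sg (s k) := by
    intro k hk
    have h3 := hv k hk
    have h4 : |vseq ρ y k| = sg (s k) * vseq ρ y k := by
      rw [← abs_sg_mul (s k), abs_of_pos h3]
    rw [h4, mul_comm, sg_mul_sg]
  have h3 : ∑ k ∈ range (e + 2), (vseq ρ y k * cX q k + 2 * |vseq ρ y k| * cX q (k + 1) -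
      |vseq ρ y k| * cX q (k + 2)) =
      ∑ k ∈ range (e + 2), |vseq ρ y k| * (sg (s k) * cX q k + 2 * cX q (k + 1) - cX q (k + 2)) := by
    apply sum_congr rfl
    intro k hk
    have := h2 k (mem_range.1 hk)
    linear_combination (cX q k) * this
  rw [h3, ← Fin.sum_univ_eq_sum_range
    (fun k => |vseq ρ y k| * (sg (s k) * cX q k + 2 * cX q (k + 1) - cX q (k + 2)))] at h1
  have h4 : ∑ k : Fin (e + 2), |vseq ρ y k| * dz (row e (some (k, s k))) q =
      (∑ k : Fin (e + 2), |vseq ρ y k|) * dz (row e none) q + gg e *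
        ∑ k : Fin (e + 2), |vseq ρ y k| * (sg (s k) * cX q k + 2 * cX q (k + 1) - cX q (k + 2)) := by
    rw [sum_mul, mul_sum, ← sum_add_distrib]
    apply sum_congr rfl
    intro k _
    rw [dz_some, dz_none]
    ring
  rw [h4, h1, dz_none]
  unfold obj
  ring

theorem tight_unique {e : ℕ} {s : ℕ → Bool} (q : Fin (e + 3) → ℝ) (h0 : dz (row e none) q = 0)
    (h : ∀ k : Fin (e + 2), dz (row e (some (k, s k))) q = 0) : q = 0 := by
  have hg : (gg e : ℝ) ≠ 0 := by exact_mod_cast (gg_pos e).ne'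
  have h1 : ∀ k < e + 2, sg (s k) * cX q k + 2 * cX q (k + 1) - cX q (k + 2) = 0 := by
    intro k hk
    have h2 := h ⟨k, hk⟩
    rw [dz_some, ← dz_none, h0, zero_add] at h2
    exact (mul_eq_zero.1 h2).resolve_left hg
  have h2 : ∀ m k, e + 2 - k ≤ m → cX q k = 0 := by
    intro m
    induction m with
    | zero => exact fun k hk => cX_big q (by omega)
    | succ m ih =>
      intro k hk
      rcases Nat.lt_or_ge k (e + 2) with h3 | h3
      · have h4 := h1 k h3
        rw [ih (k + 1) (by omega), ih (k + 2) (by omega), mul_zero, add_zero, sub_zero] at h4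
        have := sg_mul_sg (s k) (cX q k)
        rw [h4, mul_zero] at this
        exact this.symm
      · exact cX_big q h3
  have h3 : ∀ k, cX q k = 0 := fun k => h2 _ k le_rfl
  rw [dz_none, h3 1, sub_zero] at h0
  ext j
  rcases Nat.lt_or_ge j (e + 2) with h4 | h4
  · have := h3 j
    unfold cX at this
    rw [dif_pos h4] at this
    exact this
  · have : j = Fin.last _ := Fin.ext (by have := j.2; simp only [Fin.val_last]; omega)
    rw [this]
    exact h0

theorem strict {e : ℕ} {s : ℕ → Bool} {ρ : ℝ} {y : ℕ → ℝ}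
    (hv : ∀ k < e + 2, 0 < sg (s k) * vseq ρ y k ∧ |vseq ρ y k| < 2) {U : ℕ → ℝ}
    (hU : ∀ k, e + 2 ≤ k → U k = 0)
    (hU' : ∀ k < e + 2, U k = sg (s k) * (5 ^ (e + 2 - k) - 2 * U (k + 1) + U (k + 2)))
    (Λ : ℝ) (q : Fin (e + 3) → ℝ) (hq : ∀ r, dz (row e r) q ≤ Λ * rhs e r)
    (hne : q ≠ Λ • uvec e U) : obj ρ y q < obj ρ y (Λ • uvec e U) := by
  have hg : (0 : ℝ) < gg e := by exact_mod_cast gg_pos e
  have hw : 0 < (gg e : ℝ) - ∑ k : Fin (e + 2), |vseq ρ y k| := by
    have h1 : ∑ k : Fin (e + 2), |vseq ρ y k| ≤ ∑ _k : Fin (e + 2), (2 : ℝ) :=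
      sum_le_sum fun k _ => (hv k k.2).2.le
    have h2 : ∑ _k : Fin (e + 2), (2 : ℝ) = 2 * (e + 2) := by
      simp; ring
    have h3 : (gg e : ℝ) = 2 * (e + 2) + 1 := by unfold gg; push_cast; ring
    linarith
  have hpos : ∀ k : Fin (e + 2), 0 < |vseq ρ y k| := by
    intro k
    rw [abs_pos]
    intro h
    have := (hv k k.2).1
    rw [h, mul_zero] at this
    exact lt_irrefl _ this
  have c1 := certificate (fun k hk => (hv k hk).1) q
  have c2 := certificate (fun k hk => (hv k hk).1) (Λ • uvec e U)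
  have t0 : dz (row e none) (Λ • uvec e U) = Λ * rhs e none := by
    rw [dz_smul_right, none_uvec hU]
  have tk : ∀ k : Fin (e + 2), dz (row e (some (k, s k))) (Λ • uvec e U) =
      Λ * rhs e (some (k, s k)) := by
    intro k
    rw [dz_smul_right, row_uvec hU hU']
  by_contra hcon
  push Not at hcon
  apply hne
  -- all rows are tight
  set A := (gg e : ℝ) - ∑ k : Fin (e + 2), |vseq ρ y k| with hA
  have h1 : (gg e : ℝ) * obj ρ y (Λ • uvec e U) - gg e * obj ρ y q =
      A * (Λ * rhs e none - dz (row e none) q) +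
        ∑ k : Fin (e + 2), |vseq ρ y k| * (Λ * rhs e (some (k, s k)) -
          dz (row e (some (k, s k))) q) := by
    rw [c1, c2, t0]
    simp only [tk, mul_sub, sum_sub_distrib]
    ring
  have h2 : (gg e : ℝ) * obj ρ y (Λ • uvec e U) - gg e * obj ρ y q ≤ 0 := by nlinarith
  have h3 : ∀ k : Fin (e + 2), 0 ≤ |vseq ρ y k| * (Λ * rhs e (some (k, s k)) -
      dz (row e (some (k, s k))) q) := fun k =>
    mul_nonneg (hpos k).le (sub_nonneg.2 (hq _))
  have h4 : 0 ≤ A * (Λ * rhs e none - dz (row e none) q) :=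
    mul_nonneg hw.le (sub_nonneg.2 (hq _))
  have h5 : 0 ≤ ∑ k : Fin (e + 2), |vseq ρ y k| * (Λ * rhs e (some (k, s k)) -
      dz (row e (some (k, s k))) q) := sum_nonneg fun k _ => h3 k
  have h6 : A * (Λ * rhs e none - dz (row e none) q) = 0 := by linarith
  have h7 : ∑ k : Fin (e + 2), |vseq ρ y k| * (Λ * rhs e (some (k, s k)) -
      dz (row e (some (k, s k))) q) = 0 := by linarith
  rw [sum_eq_zero_iff_of_nonneg fun k _ => h3 k] at h7
  have h8 : q - Λ • uvec e U = 0 := by
    apply tight_unique (s := s)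
    · rw [dz_sub_right, t0]
      rcases mul_eq_zero.1 h6 with h | h
      · exact absurd h hw.ne'
      · linarith
    · intro k
      rw [dz_sub_right, tk]
      rcases mul_eq_zero.1 (h7 k (mem_univ _)) with h | h
      · exact absurd h (hpos k).ne'
      · linarith
  exact sub_eq_zero.1 h8

end Pool.Agent.J4.H81.Shadow
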