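import Mathlib

set_option autoImplicit false

/-!
# Shadow vertex pivots with a changing auxiliary objective
-/

namespace Pool.Agent.J4.H81.Shadow

/-- `x` maximises the linear function `c` on `P` -/
def Optimal {n : ℕ} (P : Set (Fin n → ℝ)) (c x : Fin n → ℝ) : Prop :=
  x ∈ P ∧ ∀ y ∈ P, c ⬝ᵥ y ≤ c ⬝ᵥ x

/-- A pivot of the shadow vertex rule with the auxiliary objective `z`: `x` and `y` are vertices of
`P` joined by an edge on which the objective `c` increases, and no point `u` of `P` with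
`c x < c u` has a larger slope `z (u - x) / c (u - x)` than `y`. -/
def ShadowPivot {n : ℕ} (P : Set (Fin n → ℝ)) (c z x y : Fin n → ℝ) : Prop :=
  x ∈ P.extremePoints ℝ ∧ y ∈ P.extremePoints ℝ ∧ IsExposed ℝ P (segment ℝ x y) ∧
    c ⬝ᵥ x < c ⬝ᵥ y ∧ ∀ u ∈ P, c ⬝ᵥ x < c ⬝ᵥ u →
      (z ⬝ᵥ (u - x)) * (c ⬝ᵥ (y - x)) ≤ (z ⬝ᵥ (y - x)) * (c ⬝ᵥ (u - x))

/-- `Run P c v k N z x`: the shadow vertex method has started at the vertex `v` of `P`, it has made
`N` pivots, and it has changed its auxiliary objective `k` times. Now it is at `x`, and `z` is the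
auxiliary objective. The first auxiliary objective is an arbitrary nonzero linear function which is
maximised by `v`. At every moment the auxiliary objective may be replaced by an arbitrary nonzero
linear function which is maximised by the current vertex. -/
inductive Run {n : ℕ} (P : Set (Fin n → ℝ)) (c v : Fin n → ℝ) :
    ℕ → ℕ → (Fin n → ℝ) → (Fin n → ℝ) → Prop
  | start (z : Fin n → ℝ) (hz : z ≠ 0) (h : Optimal P z v) : Run P c v 0 0 z v
  | change {k N : ℕ} {z x : Fin n → ℝ} (z' : Fin n → ℝ) (h : Run P c v k N z x) (hz : z' ≠ 0)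
      (hx : Optimal P z' x) : Run P c v (k + 1) N z' x
  | pivot {k N : ℕ} {z x : Fin n → ℝ} (y : Fin n → ℝ) (h : Run P c v k N z x)
      (hy : ShadowPivot P c z x y) : Run P c v k (N + 1) z y

/-- an unbounded step of the shadow vertex rule at `x` -/
def Ray {n : ℕ} (P : Set (Fin n → ℝ)) (c z x : Fin n → ℝ) : Prop :=
  ∃ d : Fin n → ℝ, 0 < c ⬝ᵥ d ∧ (∀ t : ℝ, 0 ≤ t → x + t • d ∈ P) ∧
    ∀ u ∈ P, c ⬝ᵥ x < c ⬝ᵥ u → (z ⬝ᵥ (u - x)) * (c ⬝ᵥ d) ≤ (z ⬝ᵥ d) * (c ⬝ᵥ (u - x))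

/-- `w` is the unique maximiser of `z + t c` on `P` -/
def UMax {n : ℕ} (P : Set (Fin n → ℝ)) (c z w : Fin n → ℝ) (t : ℝ) : Prop :=
  w ∈ P ∧ ∀ u ∈ P, u ≠ w → (z + t • c) ⬝ᵥ u < (z + t • c) ⬝ᵥ w

variable {n : ℕ} {P : Set (Fin n → ℝ)} {c z x y : Fin n → ℝ}

theorem UMax.eq {w : Fin n → ℝ} {t : ℝ} (h : UMax P c z w t) (hx : Optimal P (z + t • c) x) :
    x = w := by
  by_contra hne
  exact absurd (hx.2 w h.1) (not_le.2 (h.2 x hx.1 hne))

theorem step {τ : ℝ} (hx : Optimal P (z + τ • c) x) (hxy : ShadowPivot P c z x y) :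
    ∃ τ', τ ≤ τ' ∧ Optimal P (z + τ' • c) y ∧ ∀ t, τ ≤ t → t ≤ τ' → Optimal P (z + t • c) x := by
  obtain ⟨hx1, hy1, -, hc, hs⟩ := hxy
  have hc' : 0 < c ⬝ᵥ (y - x) := by rw [dotProduct_sub]; linarith
  set p := z ⬝ᵥ (y - x) with hp
  set q := c ⬝ᵥ (y - x) with hq
  have key : ∀ t, τ ≤ t → t ≤ -(p / q) → Optimal P (z + t • c) x := by
    intro t ht1 ht2
    refine ⟨hx.1, fun u hu => ?_⟩
    have h1 := hx.2 u hu
    rw [add_dotProduct, add_dotProduct, smul_dotProduct, smul_dotProduct, smul_eq_mul,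
      smul_eq_mul] at h1 ⊢
    rcases le_or_gt (c ⬝ᵥ u) (c ⬝ᵥ x) with h2 | h2
    · nlinarith
    · have h3 := hs u hu h2
      rw [dotProduct_sub, dotProduct_sub] at h3
      have h4 : t * q ≤ -p := by
        rw [← neg_div] at ht2
        exact (le_div_iff₀ hc').1 ht2
      have h5 : 0 < c ⬝ᵥ u - c ⬝ᵥ x := by linarith
      have h6 : (z ⬝ᵥ u - z ⬝ᵥ x + t * (c ⬝ᵥ u - c ⬝ᵥ x)) * q ≤ 0 := by nlinarith
      have h7 : z ⬝ᵥ u - z ⬝ᵥ x + t * (c ⬝ᵥ u - c ⬝ᵥ x) ≤ 0 := by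
        by_contra h8
        push Not at h8
        nlinarith [mul_pos h8 hc']
      linarith
  have h0 : τ ≤ -(p / q) := by
    have h1 := hx.2 y (extremePoints_subset hy1)
    rw [add_dotProduct, add_dotProduct, smul_dotProduct, smul_dotProduct, smul_eq_mul,
      smul_eq_mul] at h1
    rw [← neg_div, le_div_iff₀ hc']
    have : p + τ * q ≤ 0 := by rw [hp, hq, dotProduct_sub, dotProduct_sub]; linarith
    linarith
  refine ⟨-(p / q), h0, ⟨extremePoints_subset hy1, fun u hu => ?_⟩, key⟩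
  have h1 := (key _ h0 le_rfl).2 u hu
  have h2 : (z + (-(p / q)) • c) ⬝ᵥ (y - x) = 0 := by
    rw [add_dotProduct, smul_dotProduct, ← hp, ← hq, smul_eq_mul]
    field_simp
    ring
  rw [dotProduct_sub] at h2
  linarith

theorem step_ray {τ : ℝ} (hx : Optimal P (z + τ • c) x) (hr : Ray P c z x) :
    ∀ w t, UMax P c z w t → τ ≤ t → x = w := by
  obtain ⟨d, hd, hray, hs⟩ := hr
  intro w t hw ht
  apply hw.eq
  -- `t ≤ -(z d / c d)`
  have h0 : t * (c ⬝ᵥ d) ≤ -(z ⬝ᵥ d) := by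
    by_contra hcon
    push Not at hcon
    have hpos : 0 < (z + t • c) ⬝ᵥ d := by
      rw [add_dotProduct, smul_dotProduct, smul_eq_mul]; linarith
    set g := (z + t • c) ⬝ᵥ d with hg
    set a := (z + t • c) ⬝ᵥ w - (z + t • c) ⬝ᵥ x with ha
    have h1 : 0 ≤ (|a| + 1) / g := by positivity
    have h2 := hray _ h1
    have h3 : (z + t • c) ⬝ᵥ (x + ((|a| + 1) / g) • d) = (z + t • c) ⬝ᵥ x + (|a| + 1) := by
      rw [dotProduct_add, dotProduct_smul, ← hg, smul_eq_mul, div_mul_cancel₀ _ hpos.ne']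
    have h4 : (z + t • c) ⬝ᵥ (x + ((|a| + 1) / g) • d) ≤ (z + t • c) ⬝ᵥ w := by
      by_cases h5 : x + ((|a| + 1) / g) • d = w
      · rw [h5]
      · exact (hw.2 _ h2 h5).le
    have h5 := le_abs_self a
    linarith
  refine ⟨hx.1, fun u hu => ?_⟩
  have h1 := hx.2 u hu
  rw [add_dotProduct, add_dotProduct, smul_dotProduct, smul_dotProduct, smul_eq_mul,
    smul_eq_mul] at h1 ⊢
  rcases le_or_gt (c ⬝ᵥ u) (c ⬝ᵥ x) with h2 | h2
  · nlinarith
  · have h3 := hs u hu h2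
    rw [dotProduct_sub, dotProduct_sub] at h3
    have h5 : 0 < c ⬝ᵥ u - c ⬝ᵥ x := by linarith
    have h6 : (z ⬝ᵥ u - z ⬝ᵥ x + t * (c ⬝ᵥ u - c ⬝ᵥ x)) * (c ⬝ᵥ d) ≤ 0 := by nlinarith
    have h7 : z ⬝ᵥ u - z ⬝ᵥ x + t * (c ⬝ᵥ u - c ⬝ᵥ x) ≤ 0 := by
      by_contra h8
      push Not at h8
      nlinarith [mul_pos h8 hd]
    linarith

end Pool.Agent.J4.H81.Shadow
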