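import Pool.Agent.J4.H81.Shadow.Tube

set_option autoImplicit false

/-!
# The linear program
-/

namespace Pool.Agent.J4.H81.Shadow

open Finset

/-- the polyhedron `A x ≤ b`, `x ≥ 0` -/
def feasible {m n : ℕ} (A : Fin m → Fin n → ℤ) (b : Fin m → ℤ) : Set (Fin n → ℝ) :=
  {x | (∀ i, ∑ j, (A i j : ℝ) * x j ≤ b i) ∧ ∀ j, 0 ≤ x j}

/-- integer vectors as real vectors -/
def re {n : ℕ} (x : Fin n → ℤ) : Fin n → ℝ := fun j => (x j : ℝ)

variable {e K D B H : ℕ}

theorem rec_all {w p d : Fin (e + 3) → ℝ} {j : ℕ} (hp : p ∈ QQ D B H K w j)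
    (hd : ∀ (a : Fin (e + 3) → ℤ) (m : ℕ), Gen (GG e) a → dz (Tm D B m a) d ≤ 0) :
    p + d ∈ QQ D B H K w j := by
  rw [mem_QQ] at hp ⊢
  refine ⟨fun i => ?_, fun i hi r => ?_⟩
  · have h1 := hp.1 i
    have h2 := hd (crow e i) K (gen_crow i)
    rw [add_sub_right_comm, dz_add_right]
    linarith
  · have h1 := hp.2 i hi r
    have h2 := hd (row e r) (K - 1 - i) (gen_row r)
    rw [add_sub_right_comm, dz_add_right]
    linarith

/-- the direction in which the objective is unbounded on `QQ` -/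
theorem up_dir (h : Par e K D B H) {a : Fin (e + 3) → ℤ} (ha : Gen (GG e) a) (m : ℕ) :
    dz (Tm D B m a) (Pi.single 0 1 - Pi.single (Fin.last _) (GG e)) ≤ 0 := by
  have h1 := inner_dir h ha 0 m (Pi.single 0 1 - Pi.single (Fin.last _) (GG e)) (by
    have e1 : (Pi.single 0 1 : Fin (e + 3) → ℝ) (Fin.last _) = 0 :=
      Pi.single_eq_of_ne zero_ne_last.symm _
    have e3 : (Pi.single (Fin.last _) (GG e) : Fin (e + 3) → ℝ) 0 = 0 :=
      Pi.single_eq_of_ne zero_ne_last _
    have e5 : ∑ l : Fin (e + 1), |(Pi.single 0 1 -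
        Pi.single (Fin.last _) (GG e) : Fin (e + 3) → ℝ) l.succ.castSucc| = 0 := by
      apply sum_eq_zero
      intro l _
      simp only [Pi.sub_apply]
      rw [Pi.single_eq_of_ne, Pi.single_eq_of_ne, sub_zero, abs_zero]
      · exact (Fin.castSucc_lt_last _).ne
      · intro h5
        have := congrArg Fin.val h5
        simp at this
    rw [e5]
    simp only [Pi.sub_apply, e1, e3, Pi.single_eq_same, zero_div, add_zero, zero_sub, sub_zero,
      abs_one, mul_one]
    have : (0 : ℝ) ≤ m * B := by positivity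
    linarith)
  rw [zero_add] at h1
  have h2 : PhiInv D B 0 (Pi.single 0 1 - Pi.single (Fin.last _) (GG e) : Fin (e + 3) → ℝ) =
      Pi.single 0 1 - Pi.single (Fin.last _) (GG e) := by
    ext j
    unfold PhiInv
    split_ifs <;> simp
  rw [h2] at h1
  exact h1

/-- the box -/
def Box (e : ℕ) (Γ : ℝ) : Set (Fin (e + 3) → ℝ) := {x | ∀ j, 0 ≤ x j ∧ x j ≤ 2 * Γ}

def OBox (e : ℕ) (Γ : ℝ) : Set (Fin (e + 3) → ℝ) := {x | ∀ j, 0 < x j ∧ x j < 2 * Γ}

theorem open_OBox (Γ : ℝ) : IsOpen (OBox e Γ) := by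
  have : OBox e Γ = ⋂ j, {x | 0 < x j ∧ x j < 2 * Γ} := by ext; simp [OBox]
  rw [this]
  exact isOpen_iInter_of_finite fun j =>
    (isOpen_lt continuous_const (continuous_apply j)).inter
      (isOpen_lt (continuous_apply j) continuous_const)

theorem convex_OBox (Γ : ℝ) : Convex ℝ (OBox e Γ) := by
  intro x hx y hy s t hs ht hst j
  simp only [Pi.add_apply, Pi.smul_apply, smul_eq_mul]
  have h1 := hx j
  have h2 := hy j
  have h3 : (s + t) * (2 * Γ) = 2 * Γ := by rw [hst, one_mul]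
  rcases eq_or_lt_of_le hs with rfl | hs
  · have : t = 1 := by linarith
    subst this
    constructor <;> linarith
  · constructor
    · nlinarith [mul_pos hs h1.1, mul_nonneg ht h2.1.le]
    · nlinarith [mul_pos hs (sub_pos.2 h1.2), mul_nonneg ht (sub_nonneg.2 h2.2.le)]

theorem level_box (h : Par e K D B H) :
    Level (QQ D B H K (fun _ => (H : ℝ) ^ K) K) (Box e ((H : ℝ) ^ K)) (OBox e ((H : ℝ) ^ K))
      (fun _ => (H : ℝ) ^ K) := by
  have hH := h.H_gt
  have hΓ : (0 : ℝ) < (H : ℝ) ^ K := by positivity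
  refine ⟨convex_QQ _ _, closed_QQ _ _, open_OBox _, convex_OBox _,
    fun p hp j => ⟨(hp j).1.le, (hp j).2.le⟩, ?_, fun j => ⟨hΓ, by linarith⟩⟩
  intro x hx j
  have h1 := ext_QQ h _ le_rfl hx j
  have h2 := bnd_lt h K
  have h3 := EE_ge h
  have h4 : (1 : ℝ) ≤ ((e + 3 : ℕ) : ℝ) := by exact_mod_cast (by omega : 1 ≤ e + 3)
  have h5 : (0 : ℝ) ≤ (e + 3).factorial * EE e K D B ^ (e + 3) * bnd e K D H K := by
    have := bnd_nonneg (e := e) (K := K) (D := D) (H := H) K
    positivity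
  have h6 : ((e + 3).factorial : ℝ) * EE e K D B ^ (e + 3) * bnd e K D H K ≤
      ((e + 3 : ℕ) : ℝ) * (EE e K D B * ((e + 3).factorial * EE e K D B ^ (e + 3) *
        bnd e K D H K)) := by
    calc _ ≤ EE e K D B * ((e + 3).factorial * EE e K D B ^ (e + 3) * bnd e K D H K) :=
          le_mul_of_one_le_left h5 h3
      _ ≤ _ := le_mul_of_one_le_left (by positivity) h4
  have h7 : |x j - (H : ℝ) ^ K| < (H : ℝ) ^ K := lt_of_le_of_lt (h1.trans h6) h2
  rw [abs_lt] at h7
  constructor <;> linarith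

theorem not_opt (h : Par e K D B H) (x : Fin (e + 3) → ℝ) (hx : x ∈ OBox e ((H : ℝ) ^ K)) :
    ¬ Optimal (QQ D B H K (fun _ => (H : ℝ) ^ K) K ∩ Box e ((H : ℝ) ^ K)) (c0 e) x := by
  intro hopt
  set d : Fin (e + 3) → ℝ := Pi.single 0 1 - Pi.single (Fin.last _) (GG e) with hd
  have hL := level_box h
  have h1 : x + d ∈ QQ D B H K (fun _ => (H : ℝ) ^ K) K :=
    rec_all hopt.1.1 fun a m ha => up_dir h ha m
  obtain ⟨ε, h2, h3, h4⟩ := small' hL.convQ hL.openO hL.sub hopt.1.1 hx h1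
  have h5 := hopt.2 _ h4
  rw [add_sub_cancel_left, dotProduct_add, dotProduct_smul] at h5
  have h6 : c0 e ⬝ᵥ d = 1 := by
    rw [hd, dotProduct_sub, dotProduct_single, dotProduct_single]
    unfold c0
    rw [Pi.single_eq_same, Pi.single_eq_of_ne zero_ne_last.symm]
    ring
  rw [h6, smul_eq_mul, mul_one] at h5
  linarith

theorem run_long (h : Par e K D B H) {k N : ℕ} {z x : Fin (e + 3) → ℝ} (hk : k < K)
    (hrun : Run (QQ D B H K (fun _ => (H : ℝ) ^ K) K ∩ Box e ((H : ℝ) ^ K)) (c0 e)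
      (fun _ => (H : ℝ) ^ K) k N z x)
    (hx : Optimal (QQ D B H K (fun _ => (H : ℝ) ^ K) K ∩ Box e ((H : ℝ) ^ K)) (c0 e) x) :
    2 ^ (e + 2) ≤ N + 1 :=
  good_final (level_box h) (good h _ le_rfl) (fun x hx => not_opt h x hx) hk hrun hx

theorem start_ext (h : Par e K D B H) : (fun _ => (H : ℝ) ^ K) ∈
    (QQ D B H K (fun _ => (H : ℝ) ^ K) K ∩ Box e ((H : ℝ) ^ K)).extremePoints ℝ := by
  have hH := h.H_gt
  have hΓ : (0 : ℝ) < (H : ℝ) ^ K := by positivity
  set w : Fin (e + 3) → ℝ := fun _ => (H : ℝ) ^ K with hw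
  have h0 : ∀ a : Fin (e + 3) → ℤ, dz a (w - w) = 0 := fun a => by simp [dz]
  refine ⟨⟨?_, fun j => ⟨hΓ.le, by simp only [hw]; linarith⟩⟩, ?_⟩
  · rw [mem_QQ]
    refine ⟨fun i => (h0 _).le, fun i _ r => ?_⟩
    rw [h0]
    have h1 : (1 : ℝ) ≤ rhs e r := by exact_mod_cast rhs_pos r
    positivity
  · intro p hp q hq hpq
    obtain ⟨a, b, ha, hb, hab, hpq⟩ := hpq
    have h1 : ∀ i, dz (Tm D B K (crow e i)) (p - w) = 0 := by
      intro i
      have h2 := ((mem_QQ _ _ _).1 hp.1).1 i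
      have h3 := ((mem_QQ _ _ _).1 hq.1).1 i
      have h4 : a * dz (Tm D B K (crow e i)) (p - w) + b * dz (Tm D B K (crow e i)) (q - w) = 0 := by
        rw [← dz_smul_right, ← dz_smul_right, ← dz_add_right, ← h0 (Tm D B K (crow e i))]
        congr 1
        ext l
        have h5 := congrFun hpq l
        simp only [Pi.add_apply, Pi.smul_apply, Pi.sub_apply, smul_eq_mul] at h5 ⊢
        linear_combination h5 - w l * hab
      nlinarith
    have hD := h.D_pos
    have h2 : ∀ i, dz (crow e i) (Phi D B K (p - w)) = 0 := by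
      intro i
      have := h1 i
      rw [dz_Tm hD] at this
      have hD' : (D : ℝ) ^ K ≠ 0 := by positivity
      exact (mul_eq_zero.1 this).resolve_left hD'
    set y := Phi D B K (p - w) with hy
    have h3 : y (Fin.last _) = 0 := by
      have := h2 (Fin.last _)
      rw [crow, dz_add_left, dz_exi, dz_ex, cX_big _ (by simp), add_zero] at this
      exact this
    have h4 : y = 0 := by
      ext i
      rcases Nat.lt_or_ge i (e + 2) with h5 | h5
      · have := h2 i
        rw [crow, dz_add_left, dz_exi, dz_ex, h3, zero_add] at this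
        unfold cX at this
        rw [dif_pos h5] at this
        exact this
      · rw [show i = Fin.last _ from Fin.ext (by have := i.2; simp; omega), h3]
        rfl
    have h5 : p - w = PhiInv D B K y := by rw [hy, PhiInv_Phi hD]
    rw [h4] at h5
    have h6 : PhiInv D B K (0 : Fin (e + 3) → ℝ) = 0 := by
      ext j
      unfold PhiInv
      split_ifs <;> simp
    rw [h6] at h5
    exact sub_eq_zero.1 h5

/-- the rows of the program -/
abbrev Idx (e K : ℕ) : Type :=
  Fin (e + 3) ⊕ ((Fin K × Option (Fin (e + 2) × Bool)) ⊕ Fin (e + 3))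

def AA (e K D B : ℕ) : Idx e K → Fin (e + 3) → ℤ
  | Sum.inl i => Tm D B K (crow e i)
  | Sum.inr (Sum.inl (i, r)) => Tm D B (K - 1 - i) (row e r)
  | Sum.inr (Sum.inr j) => Pi.single j 1

def bb (e K D B H : ℕ) : Idx e K → ℤ
  | Sum.inl i => (H : ℤ) ^ K * ∑ l, Tm D B K (crow e i) l
  | Sum.inr (Sum.inl (i, r)) => (D : ℤ) ^ (K - 1 - (i : ℕ)) * ((H : ℤ) ^ (i : ℕ) * rhs e r) +
      (H : ℤ) ^ K * ∑ l, Tm D B (K - 1 - i) (row e r) l
  | Sum.inr (Sum.inr _) => 2 * (H : ℤ) ^ K

theorem dz_const (a : Fin (e + 3) → ℤ) (x : Fin (e + 3) → ℝ) (Γ : ℝ) :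
    dz a (x - fun _ => Γ) = dz a x - Γ * ∑ l, (a l : ℝ) := by
  rw [dz_sub_right]
  congr 1
  unfold dz
  rw [← Finset.sum_mul, mul_comm]

theorem mem_iff (x : Fin (e + 3) → ℝ) :
    x ∈ QQ D B H K (fun _ => (H : ℝ) ^ K) K ∩ Box e ((H : ℝ) ^ K) ↔
      (∀ i : Idx e K, dz (AA e K D B i) x ≤ bb e K D B H i) ∧ ∀ j, 0 ≤ x j := by
  rw [Set.mem_inter_iff, mem_QQ]
  have h3 : ∀ j, dz (AA e K D B (Sum.inr (Sum.inr j))) x = x j := by
    intro j
    unfold dz AA
    rw [Finset.sum_eq_single j]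
    · simp
    · intro l _ hl
      simp [Pi.single_eq_of_ne hl]
    · intro h'; exact absurd (mem_univ _) h'
  constructor
  · rintro ⟨⟨h1, h2⟩, hb⟩
    refine ⟨?_, fun j => (hb j).1⟩
    rintro (i | ⟨i, r⟩ | j)
    · have := h1 i
      rw [dz_const] at this
      simp only [AA, bb]
      push_cast
      linarith
    · have := h2 i i.2 r
      rw [dz_const] at this
      simp only [AA, bb]
      push_cast
      linarith
    · rw [h3]
      have := (hb j).2
      simp only [bb]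
      push_cast
      linarith
  · rintro ⟨h1, h2⟩
    refine ⟨⟨fun i => ?_, fun i hi r => ?_⟩, fun j => ⟨h2 j, ?_⟩⟩
    · have := h1 (Sum.inl i)
      simp only [AA, bb] at this
      push_cast at this
      rw [dz_const]
      linarith
    · have := h1 (Sum.inr (Sum.inl (⟨i, hi⟩, r)))
      simp only [AA, bb] at this
      push_cast at this
      rw [dz_const]
      linarith
    · have := h1 (Sum.inr (Sum.inr j))
      rw [h3] at this
      simp only [bb] at this
      push_cast at this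
      linarith

theorem card_Idx (e K : ℕ) : Fintype.card (Idx e K) = K * (2 * e + 5) + 2 * (e + 3) := by
  simp only [Idx, Fintype.card_sum, Fintype.card_prod, Fintype.card_fin, Fintype.card_option,
    Fintype.card_bool]
  ring

end Pool.Agent.J4.H81.Shadow
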