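import Pool.Agent.J4.H81.Shadow.Sizes

set_option autoImplicit false

/-!
# Arbitrary improving edges are shadow pivots for some auxiliary objective
-/

namespace Pool.Agent.J4.H81.Shadow

open Set

variable {n : ℕ}

theorem dual_eq (l : StrongDual ℝ (Fin n → ℝ)) :
    ∃ a : Fin n → ℝ, ∀ u, l u = a ⬝ᵥ u := by
  refine ⟨fun j => l (fun k => if j = k then 1 else 0), fun u => ?_⟩
  have h := LinearMap.pi_apply_eq_sum_univ (l : (Fin n → ℝ) →ₗ[ℝ] ℝ) u
  simp only [smul_eq_mul] at h
  unfold dotProduct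
  calc l u = ∑ i, u i * l (fun j => if i = j then 1 else 0) := h
    _ = _ := Finset.sum_congr rfl fun i _ => mul_comm _ _

theorem realize {ρ : Type} [Finite ρ] (A : ρ → Fin n → ℤ) (β : ρ → ℝ) {P : Set (Fin n → ℝ)}
    (hP : P = {x | ∀ r, dz (A r) x ≤ β r}) {c x y : Fin n → ℝ}
    (hx : x ∈ P.extremePoints ℝ) (hy : y ∈ P.extremePoints ℝ)
    (he : IsExposed ℝ P (segment ℝ x y)) (hc : c ⬝ᵥ x < c ⬝ᵥ y) :
    ∃ z : Fin n → ℝ, z ≠ 0 ∧ Optimal P z x ∧ ShadowPivot P c z x y := by
  obtain ⟨l, hl⟩ := he ⟨x, left_mem_segment ℝ x y⟩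
  obtain ⟨a, ha⟩ := dual_eq l
  have hxs : x ∈ segment ℝ x y := left_mem_segment ℝ x y
  have hys : y ∈ segment ℝ x y := right_mem_segment ℝ x y
  have hseg : ∀ w, w ∈ segment ℝ x y ↔ w ∈ P ∧ ∀ u ∈ P, a ⬝ᵥ u ≤ a ⬝ᵥ w := by
    intro w
    rw [hl]
    simp only [mem_ofPred_eq, ha]
  have hxm := ((hseg x).1 hxs).2
  have hym := ((hseg y).1 hys).2
  have hxP : x ∈ P := hx.1
  have hyP : y ∈ P := hy.1
  have hxy : a ⬝ᵥ y = a ⬝ᵥ x := le_antisymm (hxm y hyP) (hym x hxP)
  have hcd : 0 < c ⬝ᵥ (y - x) := by rw [dotProduct_sub]; linarith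
  -- directions
  set K0 : Set (Fin n → ℝ) := {d | ‖d‖ = 1 ∧ (∀ r, dz (A r) x = β r → dz (A r) d ≤ 0) ∧
    c ⬝ᵥ d ≤ 0} with hK0
  have hneg : ∀ d ∈ K0, a ⬝ᵥ d < 0 := by
    rintro d ⟨hd1, hd2, hd3⟩
    by_contra hcon
    push Not at hcon
    have h1 : ∀ᶠ ε : ℝ in nhdsWithin 0 (Ioi 0), ∀ r, dz (A r) (x + ε • d) ≤ β r := by
      rw [Filter.eventually_all]
      intro r
      have hxr : dz (A r) x ≤ β r := by
        rw [hP] at hxP
        exact hxP r
      rcases eq_or_lt_of_le hxr with h | h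
      · filter_upwards [self_mem_nhdsWithin] with ε hε
        rw [dz_add_right, dz_smul_right, h]
        have h2 : (0 : ℝ) < ε := hε
        have := hd2 r h
        nlinarith
      · have hcont : Continuous fun ε : ℝ => dz (A r) (x + ε • d) :=
          (continuous_dz _).comp (by fun_prop)
        have h2 : dz (A r) (x + (0 : ℝ) • d) < β r := by simpa using h
        exact ((hcont.continuousAt.eventually_lt continuousAt_const h2).mono
          fun _ h => h.le).filter_mono nhdsWithin_le_nhds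
    obtain ⟨ε, hε1, hε2⟩ := (h1.and self_mem_nhdsWithin).exists
    have hε0 : (0 : ℝ) < ε := hε2
    have hmem : x + ε • d ∈ P := by rw [hP]; exact hε1
    have h3 : x + ε • d ∈ segment ℝ x y := by
      rw [hseg]
      refine ⟨hmem, fun u hu => ?_⟩
      rw [dotProduct_add, dotProduct_smul, smul_eq_mul]
      have := hxm u hu
      have := mul_nonneg hε0.le hcon
      linarith
    rw [segment_eq_image'] at h3
    obtain ⟨t, ht, hte⟩ := h3
    have h4 : t • (y - x) = ε • d := by simpa using hte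
    have h5 : t * (c ⬝ᵥ (y - x)) = ε * (c ⬝ᵥ d) := by
      rw [← smul_eq_mul, ← dotProduct_smul, h4, dotProduct_smul, smul_eq_mul]
    have h6 : t ≠ 0 := by
      rintro rfl
      rw [zero_smul] at h4
      rcases smul_eq_zero.1 h4.symm with h7 | h7
      · exact hε0.ne' h7
      · rw [h7, norm_zero] at hd1
        exact zero_ne_one hd1
    have h7 : 0 < t := lt_of_le_of_ne ht.1 (Ne.symm h6)
    have h8 := mul_pos h7 hcd
    have h9 : ε * (c ⬝ᵥ d) ≤ 0 := mul_nonpos_of_nonneg_of_nonpos hε0.le hd3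
    linarith
  have hcomp : IsCompact K0 := by
    apply IsCompact.of_isClosed_subset (isCompact_sphere (0 : Fin n → ℝ) 1)
    · have h1 : IsClosed {d : Fin n → ℝ | ‖d‖ = 1} := isClosed_eq continuous_norm continuous_const
      have h2 : IsClosed {d : Fin n → ℝ | ∀ r, dz (A r) x = β r → dz (A r) d ≤ 0} := by
        have : {d : Fin n → ℝ | ∀ r, dz (A r) x = β r → dz (A r) d ≤ 0} =
            ⋂ r, ⋂ (_ : dz (A r) x = β r), {d | dz (A r) d ≤ 0} := by
          ext d; simp
        rw [this]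
        exact isClosed_iInter fun r => isClosed_iInter fun _ =>
          isClosed_le (continuous_dz _) continuous_const
      have h3 : IsClosed {d : Fin n → ℝ | c ⬝ᵥ d ≤ 0} := by
        apply isClosed_le _ continuous_const
        unfold dotProduct
        fun_prop
      exact h1.inter (h2.inter h3)
    · rintro d ⟨hd, -⟩
      simpa using hd
  have hcont : Continuous fun d : Fin n → ℝ => a ⬝ᵥ d := by
    unfold dotProduct
    fun_prop
  -- the bound
  have hlam : ∃ lam : ℝ, 0 < lam ∧ ∀ u ∈ P, a ⬝ᵥ (u - x) ≤ lam * (c ⬝ᵥ (u - x)) := by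
    have hdir : ∀ u ∈ P, u ≠ x → c ⬝ᵥ (u - x) ≤ 0 → (‖u - x‖⁻¹) • (u - x) ∈ K0 := by
      intro u hu hne hcu
      have hnp : 0 < ‖u - x‖ := norm_pos_iff.2 (sub_ne_zero.2 hne)
      refine ⟨?_, fun r hr => ?_, ?_⟩
      · rw [norm_smul, norm_inv, norm_norm, inv_mul_cancel₀ hnp.ne']
      · rw [dz_smul_right, dz_sub_right, hr]
        rw [hP] at hu
        have := hu r
        have h2 : (0 : ℝ) < ‖u - x‖⁻¹ := inv_pos.2 hnp
        nlinarith
      · rw [dotProduct_smul, smul_eq_mul]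
        exact mul_nonpos_of_nonneg_of_nonpos (inv_pos.2 hnp).le hcu
    have hpos : ∀ (lam : ℝ), 0 < lam → ∀ u ∈ P, 0 < c ⬝ᵥ (u - x) →
        a ⬝ᵥ (u - x) ≤ lam * (c ⬝ᵥ (u - x)) := by
      intro lam hlam u hu hcu
      have h1 := hxm u hu
      have h2 := mul_pos hlam hcu
      rw [dotProduct_sub]
      linarith
    rcases K0.eq_empty_or_nonempty with hemp | hne
    · refine ⟨1, one_pos, fun u hu => ?_⟩
      by_cases hux : u = x
      · rw [hux, sub_self]; simp
      · rcases le_or_gt (c ⬝ᵥ (u - x)) 0 with h1 | h1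
        · have := hdir u hu hux h1
          rw [hemp] at this
          exact absurd this (notMem_empty _)
        · exact hpos 1 one_pos u hu h1
    · obtain ⟨d0, hd0, hmax⟩ := hcomp.exists_isMaxOn hne hcont.continuousOn
      have hμ := hneg d0 hd0
      have hcont' : Continuous fun d : Fin n → ℝ => c ⬝ᵥ d := by
        unfold dotProduct
        fun_prop
      obtain ⟨d1, hd1, hmin⟩ := hcomp.exists_isMinOn hne hcont'.continuousOn
      have hC : c ⬝ᵥ d1 ≤ 0 := hd1.2.2
      set μ := -(a ⬝ᵥ d0) with hμd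
      set C := -(c ⬝ᵥ d1) with hCd
      have hμ0 : 0 < μ := by rw [hμd]; linarith
      have hC0 : 0 ≤ C := by rw [hCd]; linarith
      have hl0 : 0 < μ / (C + 1) := div_pos hμ0 (by linarith)
      refine ⟨μ / (C + 1), hl0, fun u hu => ?_⟩
      by_cases hux : u = x
      · rw [hux, sub_self]; simp
      · rcases le_or_gt (c ⬝ᵥ (u - x)) 0 with h1 | h1
        · have hd := hdir u hu hux h1
          have h2 : a ⬝ᵥ ((‖u - x‖⁻¹) • (u - x)) ≤ a ⬝ᵥ d0 := hmax hd
          have h3 : c ⬝ᵥ d1 ≤ c ⬝ᵥ ((‖u - x‖⁻¹) • (u - x)) := hmin hd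
          rw [dotProduct_smul, smul_eq_mul] at h2 h3
          have hnp : 0 < ‖u - x‖ := norm_pos_iff.2 (sub_ne_zero.2 hux)
          have hinv : 0 < ‖u - x‖⁻¹ := inv_pos.2 hnp
          have h4 : μ / (C + 1) * (-C) ≥ -μ := by
            rw [ge_iff_le, mul_neg, neg_le_neg_iff, div_mul_eq_mul_div,
              div_le_iff₀ (by linarith)]
            nlinarith
          have h5 : ‖u - x‖⁻¹ * (a ⬝ᵥ (u - x)) ≤ ‖u - x‖⁻¹ * (μ / (C + 1) * (c ⬝ᵥ (u - x))) := by
            have h6 : μ / (C + 1) * (-C) ≤ μ / (C + 1) * (‖u - x‖⁻¹ * (c ⬝ᵥ (u - x))) :=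
              mul_le_mul_of_nonneg_left (by linarith) hl0.le
            linarith
          exact le_of_mul_le_mul_left h5 hinv
        · exact hpos _ hl0 u hu h1
  obtain ⟨lam, hlam0, hlam⟩ := hlam
  have hz : (a - lam • c) ⬝ᵥ (y - x) = - lam * (c ⬝ᵥ (y - x)) := by
    rw [sub_dotProduct, smul_dotProduct, smul_eq_mul, dotProduct_sub, hxy, sub_self]
    ring
  refine ⟨a - lam • c, ?_, ⟨hxP, fun u hu => ?_⟩, hx, hy, he, hc, fun u hu hcu => ?_⟩
  · intro h0
    rw [h0, zero_dotProduct] at hz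
    nlinarith
  · have h1 := hlam u hu
    rw [dotProduct_sub, dotProduct_sub] at h1
    rw [sub_dotProduct, sub_dotProduct, smul_dotProduct, smul_dotProduct, smul_eq_mul,
      smul_eq_mul]
    linarith
  · rw [hz, sub_dotProduct, smul_dotProduct, smul_eq_mul]
    have h1 := hxm u hu
    have h2 : a ⬝ᵥ (u - x) ≤ 0 := by rw [dotProduct_sub]; linarith
    nlinarith

/-- an edge on which the objective increases -/
def ImprovingEdge (P : Set (Fin n → ℝ)) (c x y : Fin n → ℝ) : Prop :=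
  x ∈ P.extremePoints ℝ ∧ y ∈ P.extremePoints ℝ ∧ IsExposed ℝ P (segment ℝ x y) ∧
    c ⬝ᵥ x < c ⬝ᵥ y

/-- `FreeRun P c v k N z x`: the shadow vertex method has started at the vertex `v` of `P`, and it
has made `N` pivots. Now it is at `x`, and `z` is the auxiliary objective. It has spent `k`: the
price of a change of the auxiliary objective is `1` (`change`), and the price of a pivot along an
arbitrary improving edge, after which a new auxiliary objective is chosen, is `2` (`free`). The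
other pivots are shadow pivots with the current auxiliary objective. All auxiliary objectives are
arbitrary nonzero linear functions which are maximised by the vertex at which they are chosen. -/
inductive FreeRun (P : Set (Fin n → ℝ)) (c v : Fin n → ℝ) :
    ℕ → ℕ → (Fin n → ℝ) → (Fin n → ℝ) → Prop
  | start (z : Fin n → ℝ) (hz : z ≠ 0) (h : Optimal P z v) : FreeRun P c v 0 0 z v
  | change {k N : ℕ} {z x : Fin n → ℝ} (z' : Fin n → ℝ) (h : FreeRun P c v k N z x) (hz : z' ≠ 0)
      (hx : Optimal P z' x) : FreeRun P c v (k + 1) N z' x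
  | pivot {k N : ℕ} {z x : Fin n → ℝ} (y : Fin n → ℝ) (h : FreeRun P c v k N z x)
      (hy : ShadowPivot P c z x y) : FreeRun P c v k (N + 1) z y
  | free {k N : ℕ} {z x : Fin n → ℝ} (y z' : Fin n → ℝ) (h : FreeRun P c v k N z x)
      (hy : ImprovingEdge P c x y) (hz : z' ≠ 0) (hy' : Optimal P z' y) :
      FreeRun P c v (k + 2) (N + 1) z' y

theorem FreeRun.run {ρ : Type} [Finite ρ] (A : ρ → Fin n → ℤ) (β : ρ → ℝ) {P : Set (Fin n → ℝ)}
    (hP : P = {x | ∀ r, dz (A r) x ≤ β r}) {c v : Fin n → ℝ} {k N : ℕ} {z x : Fin n → ℝ}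
    (h : FreeRun P c v k N z x) : Run P c v k N z x := by
  induction h with
  | start z hz h => exact Run.start z hz h
  | change z' _ hz hx ih => exact Run.change z' ih hz hx
  | pivot y _ hy ih => exact Run.pivot y ih hy
  | free y z' _ hy hz hy' ih =>
    obtain ⟨w, hw0, hw, hwp⟩ := realize A β hP hy.1 hy.2.1 hy.2.2.1 hy.2.2.2
    exact Run.change z' (Run.pivot y (Run.change w ih hw0 hw) hwp) hz hy'

end Pool.Agent.J4.H81.Shadow
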