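import Pool.Agent.J4.H81.Shadow.Trans

set_option autoImplicit false

/-!
# The levels of the trap
-/

namespace Pool.Agent.J4.H81.Shadow

open Finset

variable {e K D B H : ℕ}

/-- the `j`-th cube -/
def LW (D B m : ℕ) (Λ : ℝ) (w : Fin (e + 3) → ℝ) : Set (Fin (e + 3) → ℝ) :=
  {p | ∀ r, dz (Tm D B m (row e r)) (p - w) ≤ D ^ m * (Λ * rhs e r)}

def LO (D B m : ℕ) (Λ : ℝ) (w : Fin (e + 3) → ℝ) : Set (Fin (e + 3) → ℝ) :=
  {p | ∀ r, dz (Tm D B m (row e r)) (p - w) < D ^ m * (Λ * rhs e r)}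

def QQ (D B H K : ℕ) (w : Fin (e + 3) → ℝ) : ℕ → Set (Fin (e + 3) → ℝ)
  | 0 => {p | ∀ i, dz (Tm D B K (crow e i)) (p - w) ≤ 0}
  | j + 1 => QQ D B H K w j ∩ LW D B (K - 1 - j) ((H : ℝ) ^ j) w

theorem mem_QQ (w p : Fin (e + 3) → ℝ) (j : ℕ) : p ∈ QQ D B H K w j ↔
    (∀ i, dz (Tm D B K (crow e i)) (p - w) ≤ 0) ∧
    ∀ i < j, ∀ r, dz (Tm D B (K - 1 - i) (row e r)) (p - w) ≤
      D ^ (K - 1 - i) * ((H : ℝ) ^ i * rhs e r) := by
  induction j with
  | zero => simp [QQ]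
  | succ j ih =>
    rw [QQ, Set.mem_inter_iff, ih]
    constructor
    · rintro ⟨⟨h1, h2⟩, h3⟩
      refine ⟨h1, fun i hi r => ?_⟩
      rcases Nat.lt_succ_iff_lt_or_eq.1 hi with h | rfl
      · exact h2 i h r
      · exact h3 r
    · rintro ⟨h1, h2⟩
      exact ⟨⟨h1, fun i hi => h2 i (by omega)⟩, h2 j (by omega)⟩

theorem convex_half (a : Fin (e + 3) → ℤ) (w : Fin (e + 3) → ℝ) (β : ℝ) :
    Convex ℝ {p | dz a (p - w) ≤ β} := by
  intro x hx y hy s t hs ht hst
  simp only [Set.mem_ofPred_eq] at hx hy ⊢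
  have : s • x + t • y - w = s • (x - w) + t • (y - w) := by
    have : w = (s + t) • w := by rw [hst, one_smul]
    nth_rw 1 [this]
    rw [add_smul, smul_sub, smul_sub]
    abel
  rw [this, dz_add_right, dz_smul_right, dz_smul_right]
  have : (s + t) * β = β := by rw [hst, one_mul]
  nlinarith

theorem convex_half' (a : Fin (e + 3) → ℤ) (w : Fin (e + 3) → ℝ) (β : ℝ) :
    Convex ℝ {p | dz a (p - w) < β} := by
  intro x hx y hy s t hs ht hst
  simp only [Set.mem_ofPred_eq] at hx hy ⊢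
  have : s • x + t • y - w = s • (x - w) + t • (y - w) := by
    have : w = (s + t) • w := by rw [hst, one_smul]
    nth_rw 1 [this]
    rw [add_smul, smul_sub, smul_sub]
    abel
  rw [this, dz_add_right, dz_smul_right, dz_smul_right]
  have h1 : (s + t) * β = β := by rw [hst, one_mul]
  rcases eq_or_lt_of_le hs with rfl | hs
  · have : t = 1 := by linarith
    subst this
    linarith
  · nlinarith [mul_pos hs (sub_pos.2 hx), mul_nonneg ht (sub_nonneg.2 hy.le)]

theorem closed_half (a : Fin (e + 3) → ℤ) (w : Fin (e + 3) → ℝ) (β : ℝ) :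
    IsClosed {p | dz a (p - w) ≤ β} :=
  isClosed_le ((continuous_dz a).comp (by fun_prop)) continuous_const

theorem open_half (a : Fin (e + 3) → ℤ) (w : Fin (e + 3) → ℝ) (β : ℝ) :
    IsOpen {p | dz a (p - w) < β} :=
  isOpen_lt ((continuous_dz a).comp (by fun_prop)) continuous_const

theorem convex_LW (m : ℕ) (Λ : ℝ) (w : Fin (e + 3) → ℝ) : Convex ℝ (LW D B m Λ w) := by
  have : LW D B m Λ w = ⋂ r, {p | dz (Tm D B m (row e r)) (p - w) ≤ D ^ m * (Λ * rhs e r)} := by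
    ext p; simp [LW]
  rw [this]
  exact convex_iInter fun r => convex_half _ _ _

theorem closed_LW (m : ℕ) (Λ : ℝ) (w : Fin (e + 3) → ℝ) : IsClosed (LW D B m Λ w) := by
  have : LW D B m Λ w = ⋂ r, {p | dz (Tm D B m (row e r)) (p - w) ≤ D ^ m * (Λ * rhs e r)} := by
    ext p; simp [LW]
  rw [this]
  exact isClosed_iInter fun r => closed_half _ _ _

theorem convex_LO (m : ℕ) (Λ : ℝ) (w : Fin (e + 3) → ℝ) : Convex ℝ (LO D B m Λ w) := by
  have : LO D B m Λ w = ⋂ r, {p | dz (Tm D B m (row e r)) (p - w) < D ^ m * (Λ * rhs e r)} := by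
    ext p; simp [LO]
  rw [this]
  exact convex_iInter fun r => convex_half' _ _ _

theorem open_LO (m : ℕ) (Λ : ℝ) (w : Fin (e + 3) → ℝ) : IsOpen (LO D B m Λ w) := by
  have : LO D B m Λ w = ⋂ r, {p | dz (Tm D B m (row e r)) (p - w) < D ^ m * (Λ * rhs e r)} := by
    ext p; simp [LO]
  rw [this]
  exact isOpen_iInter_of_finite fun r => open_half _ _ _

theorem convex_QQ (w : Fin (e + 3) → ℝ) (j : ℕ) : Convex ℝ (QQ D B H K w j) := by
  induction j with
  | zero =>
    have : QQ D B H K w 0 = ⋂ i, {p | dz (Tm D B K (crow e i)) (p - w) ≤ 0} := by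
      ext p; simp [QQ]
    rw [this]
    exact convex_iInter fun r => convex_half _ _ _
  | succ j ih => exact ih.inter (convex_LW _ _ _)

theorem closed_QQ (w : Fin (e + 3) → ℝ) (j : ℕ) : IsClosed (QQ D B H K w j) := by
  induction j with
  | zero =>
    have : QQ D B H K w 0 = ⋂ i, {p | dz (Tm D B K (crow e i)) (p - w) ≤ 0} := by
      ext p; simp [QQ]
    rw [this]
    exact isClosed_iInter fun r => closed_half _ _ _
  | succ j ih => exact ih.inter (closed_LW _ _ _)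

/-- the bound for the entries -/
noncomputable def EE (e K D B : ℕ) : ℝ := D ^ K * (GG e + K * B)

noncomputable def bmax (e : ℕ) : ℝ := gg e * 5 ^ (e + 2) + 2 * hh e

theorem EE_ge (h : Par e K D B H) : 1 ≤ EE e K D B := by
  have h1 := h.D_ge
  have h2 := GG_pos e
  have h3 : (0 : ℝ) ≤ K * B := by positivity
  have h4 : (1 : ℝ) ≤ D ^ K := one_le_pow₀ h1
  unfold EE
  nlinarith

theorem abs_Tm (h : Par e K D B H) {a : Fin (e + 3) → ℤ} (ha : Gen (GG e) a) {m : ℕ} (hm : m ≤ K)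
    (j : Fin (e + 3)) : |(Tm D B m a j : ℝ)| ≤ EE e K D B := by
  have h1 := h.D_ge
  have h2 := GG_pos e
  have h3 : (0 : ℝ) ≤ K * B := by positivity
  have h4 : (1 : ℝ) ≤ D ^ m := one_le_pow₀ h1
  have h5 : (D : ℝ) ^ m ≤ D ^ K := pow_le_pow_right₀ h1 hm
  have h6 : (m : ℝ) * B ≤ K * B := by
    have : (m : ℝ) ≤ K := by exact_mod_cast hm
    exact mul_le_mul_of_nonneg_right this (Nat.cast_nonneg _)
  have h7 := ha.bound j
  have h8 : GG e + K * B ≤ EE e K D B := by unfold EE; nlinarith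
  unfold Tm
  split_ifs with c1 c2
  · push_cast
    rw [abs_mul, abs_of_nonneg (by positivity : (0 : ℝ) ≤ D ^ m)]
    unfold EE
    exact mul_le_mul h5 (by linarith) (abs_nonneg _) (by positivity)
  · push_cast
    rw [ha.last, abs_mul, abs_of_nonneg (by positivity : (0 : ℝ) ≤ D ^ m)]
    unfold EE
    refine mul_le_mul h5 ?_ (abs_nonneg _) (by positivity)
    have h9 := abs_sub (a j : ℝ) (m * B)
    rw [abs_of_nonneg (by positivity : (0 : ℝ) ≤ m * B)] at h9
    push_cast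
    rw [mul_one]
    linarith
  · linarith

theorem bmax_pos (e : ℕ) : 0 < bmax e := by
  have h1 : (0 : ℝ) < gg e := by exact_mod_cast gg_pos e
  have h2 : (0 : ℝ) < hh e := by exact_mod_cast hh_pos e
  unfold bmax; positivity

theorem rhs_bmax (r : Option (Fin (e + 2) × Bool)) : (rhs e r : ℝ) ≤ bmax e := by
  have := rhs_le (e := e) r
  unfold bmax
  exact_mod_cast this

/-- the bound for the right hand sides of the levels below `j` -/
noncomputable def bnd (e K D H j : ℕ) : ℝ := if j = 0 then 0 else D ^ K * (H ^ (j - 1) * bmax e)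

theorem Par.H_gt (h : Par e K D B H) : (1 : ℝ) < H := by
  have h1 := h.hH
  have h2 := EE_ge h
  have h3 : (1 : ℝ) ≤ (D : ℝ) ^ K := one_le_pow₀ h.D_ge
  have h4 : (1 : ℝ) ≤ bmax e := by
    have h1 : (1 : ℝ) ≤ gg e := by exact_mod_cast gg_pos e
    have h2 : (0 : ℝ) < hh e := by exact_mod_cast hh_pos e
    have h3 : (1 : ℝ) ≤ 5 ^ (e + 2) := one_le_pow₀ (by norm_num)
    unfold bmax; nlinarith
  have h5 : (1 : ℝ) ≤ (e + 3).factorial := by exact_mod_cast Nat.factorial_pos (e + 3)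
  have h6 : (1 : ℝ) ≤ ((e + 3 : ℕ) : ℝ) := by exact_mod_cast (by omega : 1 ≤ e + 3)
  have h7 : (1 : ℝ) ≤ EE e K D B ^ (e + 3) := one_le_pow₀ h2
  have h8 : (1 : ℝ) ≤ D ^ K * bmax e := one_le_mul_of_one_le_of_one_le h3 h4
  have h9 : (1 : ℝ) ≤ (e + 3).factorial * EE e K D B ^ (e + 3) :=
    one_le_mul_of_one_le_of_one_le h5 h7
  have h10 : (1 : ℝ) ≤ ((e + 3 : ℕ) : ℝ) * (EE e K D B * ((e + 3).factorial *
    EE e K D B ^ (e + 3) * (D ^ K * bmax e))) :=
    one_le_mul_of_one_le_of_one_le h6 (one_le_mul_of_one_le_of_one_le h2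
      (one_le_mul_of_one_le_of_one_le h9 h8))
  exact lt_of_le_of_lt h10 h1

theorem bnd_lt (h : Par e K D B H) (j : ℕ) :
    ((e + 3 : ℕ) : ℝ) * (EE e K D B * ((e + 3).factorial * EE e K D B ^ (e + 3) *
      bnd e K D H j)) < H ^ j := by
  have hH := h.H_gt
  unfold bnd
  split_ifs with hj
  · subst hj
    simp
  · obtain ⟨i, rfl⟩ : ∃ i, j = i + 1 := ⟨j - 1, by omega⟩
    simp only [Nat.add_sub_cancel]
    have h1 := h.hH
    have h2 : (0 : ℝ) < (H : ℝ) ^ i := by positivity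
    have h3 := mul_lt_mul_of_pos_right h1 h2
    rw [pow_succ]
    calc _ = ((e + 3 : ℕ) : ℝ) * ((D ^ K * (GG e + K * B)) * ((e + 3).factorial *
            (D ^ K * (GG e + K * B)) ^ (e + 3) * (D ^ K * (gg e * 5 ^ (e + 2) + 2 * hh e)))) *
            (H : ℝ) ^ i := by unfold EE bmax; ring
      _ < H * (H : ℝ) ^ i := h3
      _ = (H : ℝ) ^ i * H := by ring

theorem bnd_nonneg (j : ℕ) : 0 ≤ bnd e K D H j := by
  unfold bnd
  have := bmax_pos e
  split_ifs <;> positivity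

/-- the vertices of `QQ j` are near `w` -/
theorem ext_QQ (h : Par e K D B H) (w : Fin (e + 3) → ℝ) {j : ℕ} (hj : j ≤ K)
    {x : Fin (e + 3) → ℝ} (hx : x ∈ (QQ D B H K w j).extremePoints ℝ) (i : Fin (e + 3)) :
    |(x - w) i| ≤ (e + 3).factorial * EE e K D B ^ (e + 3) * bnd e K D H j := by
  have hH := h.H_gt
  have hD1 := h.D_ge
  have hb0 : (0 : ℝ) ≤ bnd e K D H j := bnd_nonneg j
  let A : Fin (e + 3) ⊕ (Fin j × Option (Fin (e + 2) × Bool)) → Fin (e + 3) → ℤ
    | Sum.inl i => Tm D B K (crow e i)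
    | Sum.inr (i, r) => Tm D B (K - 1 - i) (row e r)
  let β : Fin (e + 3) ⊕ (Fin j × Option (Fin (e + 2) × Bool)) → ℝ
    | Sum.inl i => 0
    | Sum.inr (i, r) => D ^ (K - 1 - (i : ℕ)) * ((H : ℝ) ^ (i : ℕ) * rhs e r)
  have hset : QQ D B H K w j = {x | ∀ r, dz (A r) (x - w) ≤ β r} := by
    ext p
    rw [mem_QQ]
    constructor
    · rintro ⟨h1, h2⟩ (i | ⟨i, r⟩)
      · exact h1 i
      · exact h2 i i.2 r
    · intro h1
      exact ⟨fun i => h1 (Sum.inl i), fun i hi r => h1 (Sum.inr (⟨i, hi⟩, r))⟩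
  rw [hset] at hx
  refine extreme_bound A β (EE e K D B) (bnd e K D H j) (EE_ge h) hb0 ?_ ?_ w x hx i
  · rintro (i | ⟨i, r⟩) l
    · exact abs_Tm h (gen_crow i) le_rfl l
    · exact abs_Tm h (gen_row r) (by omega) l
  · rintro (i | ⟨i, r⟩)
    · simp only [β, abs_zero]
      exact hb0
    · have hj0 : j ≠ 0 := by have := i.2; omega
      have h1 : (1 : ℝ) ≤ rhs e r := by exact_mod_cast rhs_pos r
      simp only [β]
      rw [abs_of_nonneg (by positivity), bnd, if_neg hj0]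
      have h2 : (D : ℝ) ^ (K - 1 - (i : ℕ)) ≤ D ^ K := pow_le_pow_right₀ hD1 (by omega)
      have h3 : (H : ℝ) ^ (i : ℕ) ≤ H ^ (j - 1) :=
        pow_le_pow_right₀ hH.le (by have := i.2; omega)
      exact mul_le_mul h2 (mul_le_mul h3 (rhs_bmax r) (by linarith) (by positivity))
        (by positivity) (by positivity)

theorem level (h : Par e K D B H) (w : Fin (e + 3) → ℝ) {j : ℕ} (hj : j < K) :
    Level (QQ D B H K w j) (LW D B (K - 1 - j) ((H : ℝ) ^ j) w)
      (LO D B (K - 1 - j) ((H : ℝ) ^ j) w) w := by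
  have hH := h.H_gt
  have hD1 := h.D_ge
  have hrow : ∀ r : Option (Fin (e + 2) × Bool),
      (H : ℝ) ^ j ≤ D ^ (K - 1 - j) * ((H : ℝ) ^ j * rhs e r) := by
    intro r
    have h1 : (1 : ℝ) ≤ rhs e r := by exact_mod_cast rhs_pos r
    have h2 : (1 : ℝ) ≤ D ^ (K - 1 - j) := one_le_pow₀ hD1
    have h3 : (0 : ℝ) < (H : ℝ) ^ j := by positivity
    calc (H : ℝ) ^ j ≤ (H : ℝ) ^ j * rhs e r := le_mul_of_one_le_right h3.le h1
      _ ≤ _ := le_mul_of_one_le_left (by positivity) h2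
  refine ⟨convex_QQ w j, closed_QQ w j, open_LO _ _ _, convex_LO _ _ _,
    fun p hp r => (hp r).le, ?_, ?_⟩
  · intro x hx r
    have h1 := abs_dz_le (a := Tm D B (K - 1 - j) (row e r)) (x := x - w)
      (zero_le_one.trans (EE_ge h)) (fun l => abs_Tm h (gen_row r) (by omega) l)
      (fun l => ext_QQ h w hj.le hx l)
    have h2 := bnd_lt h j
    have h3 := le_abs_self (dz (Tm D B (K - 1 - j) (row e r)) (x - w))
    have h4 := hrow r
    linarith
  · intro r
    have h1 := hrow r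
    have h2 : (0 : ℝ) < (H : ℝ) ^ j := by positivity
    have h3 : dz (Tm D B (K - 1 - j) (row e r)) (w - w) = 0 := by
      rw [sub_self]; simp [dz]
    rw [h3]
    linarith

/-- recession directions of `QQ j` -/
theorem rec_QQ {w p d : Fin (e + 3) → ℝ} {j : ℕ} (hj : j < K) (hp : p ∈ QQ D B H K w j)
    (hd : ∀ (a : Fin (e + 3) → ℤ) (δ : ℕ), Gen (GG e) a → 1 ≤ δ → δ ≤ K →
      dz (Tm D B (K - 1 - j + δ) a) d ≤ 0) : p + d ∈ QQ D B H K w j := by
  rw [mem_QQ] at hp ⊢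
  refine ⟨fun i => ?_, fun i hi r => ?_⟩
  · have h1 := hp.1 i
    have h2 := hd (crow e i) (j + 1) (gen_crow i) (by omega) (by omega)
    rw [show K - 1 - j + (j + 1) = K by omega] at h2
    rw [add_sub_right_comm, dz_add_right]
    linarith
  · have h1 := hp.2 i hi r
    have h2 := hd (row e r) (j - i) (gen_row r) (by omega) (by omega)
    rw [show K - 1 - j + (j - i) = K - 1 - i by omega] at h2
    rw [add_sub_right_comm, dz_add_right]
    linarith

end Pool.Agent.J4.H81.Shadow
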