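import Pool.Agent.J4.H81.Shadow.Defs

set_option autoImplicit false

/-!
# Runs in `Q ∩ W` and runs in `Q`
-/

namespace Pool.Agent.J4.H81.Shadow

open Set

variable {n : ℕ} {Q W O : Set (Fin n → ℝ)} {c z x y v : Fin n → ℝ}

theorem small (hO : IsOpen O) (hx : x ∈ O) (u : Fin n → ℝ) :
    ∃ ε : ℝ, 0 < ε ∧ ε ≤ 1 ∧ x + ε • (u - x) ∈ O := by
  have hc : Continuous fun ε : ℝ => x + ε • (u - x) := by fun_prop
  have h1 : (fun ε : ℝ => x + ε • (u - x)) ⁻¹' O ∈ nhds (0 : ℝ) := by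
    apply (hO.preimage hc).mem_nhds
    simpa using hx
  obtain ⟨δ, hδ, hδO⟩ := Metric.mem_nhds_iff.1 h1
  refine ⟨min (δ / 2) 1, by positivity, min_le_right _ _, ?_⟩
  have : min (δ / 2) 1 ∈ Metric.ball (0 : ℝ) δ := by
    rw [Metric.mem_ball, dist_zero_right, Real.norm_eq_abs, abs_of_pos (by positivity)]
    exact lt_of_le_of_lt (min_le_left _ _) (by linarith)
  exact hδO this

theorem toward (hQ : Convex ℝ Q) (hx : x ∈ Q) {u : Fin n → ℝ} (hu : u ∈ Q) {ε : ℝ} (h0 : 0 < ε)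
    (h1 : ε ≤ 1) : x + ε • (u - x) ∈ Q := by
  have := hQ hx hu (sub_nonneg.2 h1) h0.le (by ring)
  convert this using 1
  rw [sub_smul, one_smul, smul_sub]
  abel

/-- small steps towards `u` stay in `Q ∩ W` -/
theorem small' (hQ : Convex ℝ Q) (hO : IsOpen O) (hOW : O ⊆ W) (hxQ : x ∈ Q) (hxO : x ∈ O)
    {u : Fin n → ℝ} (hu : u ∈ Q) : ∃ ε : ℝ, 0 < ε ∧ ε ≤ 1 ∧ x + ε • (u - x) ∈ Q ∩ W := by
  obtain ⟨ε, h0, h1, h2⟩ := small hO hxO u
  exact ⟨ε, h0, h1, toward hQ hxQ hu h0 h1, hOW h2⟩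

theorem loc_opt (hQ : Convex ℝ Q) (hO : IsOpen O) (hOW : O ⊆ W) (hxO : x ∈ O)
    (h : Optimal (Q ∩ W) z x) : Optimal Q z x := by
  refine ⟨h.1.1, fun u hu => ?_⟩
  obtain ⟨ε, h0, h1, h2⟩ := small' hQ hO hOW h.1.1 hxO hu
  have h3 := h.2 _ h2
  rw [dotProduct_add, dotProduct_smul, dotProduct_sub, smul_eq_mul] at h3
  by_contra h4
  push Not at h4
  nlinarith

theorem loc_ext (hQ : Convex ℝ Q) (hO : IsOpen O) (hOW : O ⊆ W) (hxO : x ∈ O)
    (h : x ∈ (Q ∩ W).extremePoints ℝ) : x ∈ Q.extremePoints ℝ := by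
  refine ⟨h.1.1, fun p hp q hq hpq => ?_⟩
  obtain ⟨ε, h0, h1, h2⟩ := small' hQ hO hOW h.1.1 hxO hp
  obtain ⟨ε', h0', h1', h2'⟩ := small' hQ hO hOW h.1.1 hxO hq
  obtain ⟨a, b, ha, hb, hab, rfl⟩ := hpq
  -- x = a p + b q; we look for weights on the two shrunken points
  set x := a • p + b • q with hx
  have hxp : p - x = b • (p - q) := by
    rw [hx, smul_sub]
    nth_rw 1 [← one_smul ℝ p]
    rw [← hab, add_smul]
    abel
  have hxq : q - x = -(a • (p - q)) := by
    rw [hx, smul_sub]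
    nth_rw 1 [← one_smul ℝ q]
    rw [← hab, add_smul]
    abel
  have key : x + ε • (p - x) = x := by
    apply h.2 h2 h2'
    have hs : 0 < ε' * a + ε * b := by positivity
    refine ⟨ε' * a / (ε' * a + ε * b), ε * b / (ε' * a + ε * b), by positivity, by positivity,
      by field_simp, ?_⟩
    rw [hxp, hxq]
    ext i
    simp only [Pi.add_apply, Pi.smul_apply, Pi.sub_apply, Pi.neg_apply, smul_eq_mul]
    field_simp
    ring
  have h5 : ε • (p - x) = 0 := by simpa using key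
  rcases smul_eq_zero.1 h5 with h6 | h6
  · exact absurd h6 h0.ne'
  · exact sub_eq_zero.1 h6

theorem loc_slope (hQ : Convex ℝ Q) (hO : IsOpen O) (hOW : O ⊆ W) (hxQ : x ∈ Q) (hxO : x ∈ O)
    {d : Fin n → ℝ}
    (h : ∀ u ∈ Q ∩ W, c ⬝ᵥ x < c ⬝ᵥ u →
      (z ⬝ᵥ (u - x)) * (c ⬝ᵥ d) ≤ (z ⬝ᵥ d) * (c ⬝ᵥ (u - x))) :
    ∀ u ∈ Q, c ⬝ᵥ x < c ⬝ᵥ u → (z ⬝ᵥ (u - x)) * (c ⬝ᵥ d) ≤ (z ⬝ᵥ d) * (c ⬝ᵥ (u - x)) := by
  intro u hu hcu
  obtain ⟨ε, h0, h1, h2⟩ := small' hQ hO hOW hxQ hxO hu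
  have h3 := h _ h2 (by
    rw [dotProduct_add, dotProduct_smul, dotProduct_sub, smul_eq_mul]
    nlinarith)
  rw [add_sub_cancel_left, dotProduct_smul, dotProduct_smul, smul_eq_mul, smul_eq_mul] at h3
  have h4 : ε * ((z ⬝ᵥ (u - x)) * (c ⬝ᵥ d)) ≤ ε * ((z ⬝ᵥ d) * (c ⬝ᵥ (u - x))) := by linarith
  exact le_of_mul_le_mul_left h4 h0

/-- the functional which exposes the edge -/
theorem edge (hQ : Convex ℝ Q) (hO : IsOpen O) (hOW : O ⊆ W) (hxQ : x ∈ Q) (hxO : x ∈ O)
    (h : IsExposed ℝ (Q ∩ W) (segment ℝ x y)) :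
    ∃ l : StrongDual ℝ (Fin n → ℝ), l y = l x ∧ (∀ w ∈ Q, l w ≤ l x) ∧
      ∀ w ∈ Q, l w = l x → ∃ t : ℝ, w = x + t • (y - x) := by
  obtain ⟨l, hl⟩ := h ⟨x, left_mem_segment ℝ x y⟩
  have hx : x ∈ segment ℝ x y := left_mem_segment ℝ x y
  have hy : y ∈ segment ℝ x y := right_mem_segment ℝ x y
  rw [hl] at hx hy
  have hmax : ∀ w ∈ Q, l w ≤ l x := by
    intro w hw
    obtain ⟨ε, h0, h1, h2⟩ := small' hQ hO hOW hxQ hxO hw
    have h3 := hx.2 _ h2
    rw [map_add, map_smul, map_sub, smul_eq_mul] at h3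
    by_contra h4
    push Not at h4
    nlinarith
  refine ⟨l, le_antisymm (hx.2 _ hy.1) (hy.2 _ hx.1), hmax, fun w hw hlw => ?_⟩
  obtain ⟨ε, h0, h1, h2⟩ := small' hQ hO hOW hxQ hxO hw
  have h3 : x + ε • (w - x) ∈ segment ℝ x y := by
    rw [hl]
    refine ⟨h2, fun u hu => ?_⟩
    rw [map_add, map_smul, map_sub, hlw, sub_self, smul_zero, add_zero]
    exact hmax u hu.1
  rw [segment_eq_image'] at h3
  obtain ⟨t, -, ht⟩ := h3
  refine ⟨t / ε, ?_⟩
  have h4 : t • (y - x) = ε • (w - x) := by simpa using ht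
  rw [div_eq_inv_mul, mul_smul, h4, smul_smul, inv_mul_cancel₀ h0.ne', one_smul]
  abel

theorem loc_pivot (hQ : Convex ℝ Q) (hO : IsOpen O) (hOW : O ⊆ W) (hxO : x ∈ O) (hyO : y ∈ O)
    (h : ShadowPivot (Q ∩ W) c z x y) : ShadowPivot Q c z x y := by
  obtain ⟨hx1, hy1, he, hc, hs⟩ := h
  have hxe := loc_ext hQ hO hOW hxO hx1
  have hye := loc_ext hQ hO hOW hyO hy1
  have hne : x ≠ y := by rintro rfl; exact lt_irrefl _ hc
  refine ⟨hxe, hye, ?_, hc, loc_slope hQ hO hOW hxe.1 hxO hs⟩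
  obtain ⟨l, hl1, hl2, hl3⟩ := edge hQ hO hOW hxe.1 hxO he
  intro _
  refine ⟨l, Subset.antisymm (fun w hw => ?_) fun w hw => ?_⟩
  · have hwQ : w ∈ Q := hQ.segment_subset hxe.1 hye.1 hw
    refine ⟨hwQ, fun u hu => ?_⟩
    rw [segment_eq_image'] at hw
    obtain ⟨t, -, rfl⟩ := hw
    simp only [map_add, map_smul, map_sub, hl1, sub_self, smul_zero, add_zero]
    exact hl2 u hu
  · obtain ⟨t, rfl⟩ := hl3 w hw.1 (le_antisymm (hl2 w hw.1) (hw.2 x hxe.1))
    rw [segment_eq_image']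
    refine ⟨t, ⟨?_, ?_⟩, rfl⟩
    · by_contra ht
      push Not at ht
      -- x is between w and y
      have h1 : x ∈ openSegment ℝ y (x + t • (y - x)) := by
        refine ⟨-t / (1 - t), 1 / (1 - t), div_pos (by linarith) (by linarith),
          div_pos one_pos (by linarith), ?_, ?_⟩
        · have : (1 : ℝ) - t ≠ 0 := by linarith
          field_simp
          ring
        · have : (1 : ℝ) - t ≠ 0 := by linarith
          ext i
          simp only [Pi.add_apply, Pi.smul_apply, Pi.sub_apply, smul_eq_mul]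
          field_simp
          ring
      exact hne (hxe.2 hye.1 hw.1 h1).symm
    · by_contra ht
      push Not at ht
      have h1 : y ∈ openSegment ℝ x (x + t • (y - x)) := by
        refine ⟨(t - 1) / t, 1 / t, div_pos (by linarith) (by linarith),
          div_pos one_pos (by linarith), ?_, ?_⟩
        · have : t ≠ 0 := by linarith
          field_simp
          ring
        · have : t ≠ 0 := by linarith
          ext i
          simp only [Pi.add_apply, Pi.smul_apply, Pi.sub_apply, smul_eq_mul]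
          field_simp
          ring
      exact hne (hye.2 hxe.1 hw.1 h1)

/-- a pivot which leaves `O` follows an unbounded edge of `Q`, if the vertices of `Q` are in `O` -/
theorem exit (hQ : Convex ℝ Q) (hQc : IsClosed Q) (hO : IsOpen O) (hOc : Convex ℝ O) (hOW : O ⊆ W)
    (hext : Q.extremePoints ℝ ⊆ O) (hxO : x ∈ O) (hyO : y ∉ O)
    (h : ShadowPivot (Q ∩ W) c z x y) : Ray Q c z x := by
  obtain ⟨hx1, hy1, he, hc, hs⟩ := h
  have hxe := loc_ext hQ hO hOW hxO hx1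
  have hyQ : y ∈ Q := hy1.1.1
  have hne : x ≠ y := by rintro rfl; exact lt_irrefl _ hc
  have hd : 0 < c ⬝ᵥ (y - x) := by rw [dotProduct_sub]; linarith
  obtain ⟨l, hl1, hl2, hl3⟩ := edge hQ hO hOW hxe.1 hxO he
  refine ⟨y - x, hd, ?_, loc_slope hQ hO hOW hxe.1 hxO hs⟩
  by_contra hcon
  push Not at hcon
  obtain ⟨t₀, ht₀, hout⟩ := hcon
  set S : Set ℝ := {t | 0 ≤ t ∧ x + t • (y - x) ∈ Q} with hS
  have hSc : IsClosed S := by
    have h1 : Continuous fun t : ℝ => x + t • (y - x) := by fun_prop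
    exact (isClosed_Ici (a := (0 : ℝ))).inter (hQc.preimage h1)
  have hconv : ∀ s t : ℝ, t ∈ S → 0 ≤ s → s ≤ t → s ∈ S := by
    intro s t ht h0 hst
    refine ⟨h0, ?_⟩
    rcases eq_or_lt_of_le h0 with rfl | h0'
    · simpa using hxe.1
    · have htp : 0 < t := lt_of_lt_of_le h0' hst
      have := toward hQ hxe.1 ht.2 (div_pos h0' htp) ((div_le_one htp).2 hst)
      rw [add_sub_cancel_left, smul_smul, div_mul_cancel₀ _ htp.ne'] at this
      exact this
  have hbdd : BddAbove S := by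
    refine ⟨t₀, fun t ht => ?_⟩
    by_contra h1
    push Not at h1
    exact hout (hconv t₀ t ht ht₀ h1.le).2
  have h1S : (1 : ℝ) ∈ S := ⟨zero_le_one, by simpa using hyQ⟩
  set T := sSup S with hT
  have hTS : T ∈ S := hSc.csSup_mem ⟨1, h1S⟩ hbdd
  have hT1 : 1 ≤ T := le_csSup hbdd h1S
  have hTe : x + T • (y - x) ∈ Q.extremePoints ℝ := by
    refine ⟨hTS.2, fun p hp q hq hpq => ?_⟩
    obtain ⟨a, b, ha, hb, hab, hpq⟩ := hpq
    have h2 : a * l p + b * l q = l x := by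
      have := congrArg l hpq
      simp only [map_add, map_smul, map_sub, hl1, sub_self, smul_eq_mul, mul_zero,
        add_zero] at this
      exact this
    have h3 := hl2 p hp
    have h4 := hl2 q hq
    have hab' : (a + b) * l x = l x := by rw [hab, one_mul]
    have h5 : l p = l x := by
      by_contra h6
      have h7 : l p < l x := lt_of_le_of_ne h3 h6
      nlinarith [mul_pos ha (sub_pos.2 h7), mul_nonneg hb.le (sub_nonneg.2 h4)]
    have h6 : l q = l x := by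
      by_contra h6
      have h7 : l q < l x := lt_of_le_of_ne h4 h6
      nlinarith [mul_pos hb (sub_pos.2 h7), mul_nonneg ha.le (sub_nonneg.2 h3)]
    obtain ⟨s, rfl⟩ := hl3 p hp h5
    obtain ⟨s', rfl⟩ := hl3 q hq h6
    have hle : ∀ r : ℝ, x + r • (y - x) ∈ Q → r ≤ T := by
      intro r hr
      rcases le_or_gt 0 r with h0 | h0
      · exact le_csSup hbdd ⟨h0, hr⟩
      · linarith
    have h7 := hle s hp
    have h8 := hle s' hq
    have hyx : y - x ≠ 0 := sub_ne_zero.2 hne.symm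
    have h9 : (a * s + b * s') = T := by
      have h10 : (a * s + b * s' - T) • (y - x) = 0 := by
        have : a • (x + s • (y - x)) + b • (x + s' • (y - x)) - (x + T • (y - x)) =
            (a * s + b * s' - T) • (y - x) + (a + b - 1) • x := by
          ext i
          simp only [Pi.add_apply, Pi.smul_apply, Pi.sub_apply, smul_eq_mul]
          ring
        rw [hpq, sub_self, hab, sub_self, zero_smul, add_zero] at this
        exact this.symm
      rcases smul_eq_zero.1 h10 with h11 | h11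
      · linarith
      · exact absurd h11 hyx
    have h10 : s = T := by
      by_contra h11
      have h12 : s < T := lt_of_le_of_ne h7 h11
      have hab' : (a + b) * T = T := by rw [hab, one_mul]
      nlinarith [mul_pos ha (sub_pos.2 h12), mul_nonneg hb.le (sub_nonneg.2 h8)]
    rw [h10]
  have h2 := hext hTe
  apply hyO
  have h3 := hOc.segment_subset hxO h2
  apply h3
  rw [segment_eq_image']
  refine ⟨1 / T, ⟨by positivity, (div_le_one (by linarith)).2 hT1⟩, ?_⟩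
  simp only [add_sub_cancel_left, smul_smul]
  rw [one_div, inv_mul_cancel₀ (by linarith), one_smul]
  abel

end Pool.Agent.J4.H81.Shadow
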