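import Pool.Agent.J4.H81.Shadow.Final

set_option autoImplicit false

/-!
# The sizes of the numbers
-/

namespace Pool.Agent.J4.H81.Shadow

open Finset

theorem two_pow_ge (e : ℕ) : (e : ℝ) + 1 ≤ 2 ^ e := by
  have := Nat.lt_two_pow_self (n := e)
  exact_mod_cast this

theorem S_eq (e : ℕ) : ((2 ^ (8 * (e + 3)) : ℕ) : ℝ) = 2 ^ 24 * 256 ^ e := by
  push_cast
  rw [show 8 * (e + 3) = 24 + 8 * e by ring, pow_add, pow_mul]
  norm_num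

theorem pows (e : ℕ) : (1 : ℝ) ≤ 2 ^ e ∧ (1 : ℝ) ≤ 5 ^ e ∧ (20 : ℝ) ^ e = 2 ^ e * 2 ^ e * 5 ^ e ∧
    (18 : ℝ) ^ e = 2 ^ e * 9 ^ e ∧ (20 : ℝ) ^ e ≤ 256 ^ e ∧ (18 : ℝ) ^ e ≤ 256 ^ e := by
  refine ⟨one_le_pow₀ (by norm_num), one_le_pow₀ (by norm_num), ?_, ?_, ?_, ?_⟩
  · rw [← mul_pow, ← mul_pow]; norm_num
  · rw [← mul_pow]; norm_num
  · exact pow_le_pow_left₀ (by norm_num) (by norm_num) e
  · exact pow_le_pow_left₀ (by norm_num) (by norm_num) e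

theorem GG_le (e : ℕ) : GG e ≤ 22 * 2 ^ e := by
  have h1 := two_pow_ge e
  have h2 : GG e = 8 * e + 22 := by unfold GG gg; push_cast; ring
  have h3 : (0 : ℝ) ≤ e := Nat.cast_nonneg e
  rw [h2]
  nlinarith

theorem hh_le (e : ℕ) : (hh e : ℝ) ≤ 255 * (2 ^ e * 5 ^ e) := by
  have h1 := two_pow_ge e
  have h3 : (0 : ℝ) ≤ e := Nat.cast_nonneg e
  obtain ⟨p2, p5, -⟩ := pows e
  have h2 : (hh e : ℝ) = (2 * e + 5) * (50 * 5 ^ e + 1) := by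
    unfold hh gg lam; push_cast; rw [pow_add]; norm_num; ring
  rw [h2]
  have h4 : (2 * (e : ℝ) + 5) ≤ 5 * 2 ^ e := by nlinarith
  have h5 : (50 * (5 : ℝ) ^ e + 1) ≤ 51 * 5 ^ e := by linarith
  calc (2 * (e : ℝ) + 5) * (50 * 5 ^ e + 1) ≤ (5 * 2 ^ e) * (51 * 5 ^ e) :=
        mul_le_mul h4 h5 (by positivity) (by positivity)
    _ = _ := by ring

theorem hD_le (e : ℕ) : GG e * 9 ^ (e + 2) ≤ ((2 ^ (8 * (e + 3)) : ℕ) : ℝ) := by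
  obtain ⟨p2, p5, e20, e18, l20, l18⟩ := pows e
  rw [S_eq]
  calc GG e * 9 ^ (e + 2) ≤ (22 * 2 ^ e) * 9 ^ (e + 2) :=
        mul_le_mul_of_nonneg_right (GG_le e) (by positivity)
    _ = 1782 * 18 ^ e := by rw [e18, pow_add]; ring
    _ ≤ 1782 * 256 ^ e := by linarith
    _ ≤ 2 ^ 24 * 256 ^ e := by
        have : (0 : ℝ) < 256 ^ e := by positivity
        nlinarith

theorem hB_le (e : ℕ) : GG e * (1 + (e + 1) * 5 ^ (e + 2)) + hh e + 2 * 5 ^ (e + 2) + 2 ≤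
    ((2 ^ (8 * (e + 3)) : ℕ) : ℝ) := by
  obtain ⟨p2, p5, e20, e18, l20, l18⟩ := pows e
  have h1 := two_pow_ge e
  have h3 : (0 : ℝ) ≤ e := Nat.cast_nonneg e
  have hG := GG_pos e
  rw [S_eq]
  have a1 : (5 : ℝ) ^ (e + 2) = 25 * 5 ^ e := by rw [pow_add]; ring
  have a2 : (1 : ℝ) + (e + 1) * 5 ^ (e + 2) ≤ 26 * (2 ^ e * 5 ^ e) := by
    rw [a1]
    have : ((e : ℝ) + 1) * (25 * 5 ^ e) ≤ 2 ^ e * (25 * 5 ^ e) :=
      mul_le_mul_of_nonneg_right h1 (by positivity)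
    have h4 : (1 : ℝ) ≤ 2 ^ e * 5 ^ e := one_le_mul_of_one_le_of_one_le p2 p5
    nlinarith
  have a3 : GG e * (1 + (e + 1) * 5 ^ (e + 2)) ≤ 572 * 20 ^ e := by
    calc _ ≤ (22 * 2 ^ e) * (26 * (2 ^ e * 5 ^ e)) :=
          mul_le_mul (GG_le e) a2 (by positivity) (by positivity)
      _ = 572 * 20 ^ e := by rw [e20]; ring
  have a4 : (2 : ℝ) ^ e * 5 ^ e ≤ 20 ^ e := by
    rw [e20]
    have : (0 : ℝ) < 2 ^ e * 5 ^ e := by positivity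
    nlinarith
  have a5 : (5 : ℝ) ^ e ≤ 20 ^ e := pow_le_pow_left₀ (by norm_num) (by norm_num) e
  have a6 : (1 : ℝ) ≤ 20 ^ e := one_le_pow₀ (by norm_num)
  have a7 := hh_le e
  have a8 : (0 : ℝ) < 256 ^ e := by positivity
  rw [a1] at a3 ⊢
  nlinarith

theorem bmax_le (e : ℕ) : bmax e ≤ ((2 ^ (8 * (e + 3)) : ℕ) : ℝ) := by
  obtain ⟨p2, p5, e20, e18, l20, l18⟩ := pows e
  have h1 := two_pow_ge e
  have h3 : (0 : ℝ) ≤ e := Nat.cast_nonneg e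
  rw [S_eq]
  unfold bmax
  have a1 : (5 : ℝ) ^ (e + 2) = 25 * 5 ^ e := by rw [pow_add]; ring
  have a2 : (gg e : ℝ) ≤ 5 * 2 ^ e := by unfold gg; push_cast; nlinarith
  have a4 : (2 : ℝ) ^ e * 5 ^ e ≤ 20 ^ e := by
    rw [e20]
    have : (0 : ℝ) < 2 ^ e * 5 ^ e := by positivity
    nlinarith
  have a7 := hh_le e
  have a8 : (0 : ℝ) < 256 ^ e := by positivity
  have a9 : (gg e : ℝ) * (25 * 5 ^ e) ≤ (5 * 2 ^ e) * (25 * 5 ^ e) :=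
    mul_le_mul_of_nonneg_right a2 (by positivity)
  rw [a1]
  nlinarith

theorem GG_le_S (e : ℕ) : GG e ≤ ((2 ^ (8 * (e + 3)) : ℕ) : ℝ) := by
  have h1 := hD_le e
  have h2 : (1 : ℝ) ≤ 9 ^ (e + 2) := one_le_pow₀ (by norm_num)
  have h3 := GG_pos e
  nlinarith

theorem EE_le (e K : ℕ) : EE e K (2 ^ (8 * (e + 3))) (2 ^ (8 * (e + 3))) ≤
    2 ^ (8 * (e + 3) * (2 * K + 1)) := by
  have hG := GG_le_S e
  have h1 : (K : ℝ) + 1 ≤ 2 ^ K := two_pow_ge K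
  unfold EE
  set S : ℝ := ((2 ^ (8 * (e + 3)) : ℕ) : ℝ) with hS
  have hSr : S = 2 ^ (8 * (e + 3)) := by rw [hS]; push_cast; rfl
  have hS1 : (1 : ℝ) ≤ S := by rw [hSr]; exact one_le_pow₀ (by norm_num)
  have hS2 : (2 : ℝ) ≤ S := by
    rw [hSr]
    calc (2 : ℝ) = 2 ^ 1 := by norm_num
      _ ≤ 2 ^ (8 * (e + 3)) := pow_le_pow_right₀ (by norm_num) (by omega)
  have h2 : (2 : ℝ) ^ K ≤ S ^ K := pow_le_pow_left₀ (by norm_num) hS2 K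
  have h3 : GG e + K * S ≤ S ^ K * S := by nlinarith
  calc S ^ K * (GG e + K * S) ≤ S ^ K * (S ^ K * S) :=
        mul_le_mul_of_nonneg_left h3 (by positivity)
    _ = S ^ (2 * K + 1) := by ring
    _ = 2 ^ (8 * (e + 3) * (2 * K + 1)) := by rw [hSr, ← pow_mul]

theorem par (e k : ℕ) : Par e (k + 1) (2 ^ (8 * (e + 3))) (2 ^ (8 * (e + 3)))
    (2 ^ (48 * (e + 3) ^ 2 * (k + 1))) := by
  refine ⟨hD_le e, hB_le e, ?_⟩
  have h1 := EE_le e (k + 1)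
  have h2 := bmax_le e
  have hb := bmax_pos e
  have hE0 : 0 ≤ EE e (k + 1) (2 ^ (8 * (e + 3))) (2 ^ (8 * (e + 3))) := by
    unfold EE
    have := GG_pos e
    positivity
  have hn : (((e + 3 : ℕ) : ℝ)) ≤ 2 ^ (e + 3) := by
    have := Nat.lt_two_pow_self (n := e + 3)
    exact_mod_cast this.le
  have hf : (((e + 3).factorial : ℕ) : ℝ) ≤ 2 ^ ((e + 3) * (e + 3)) := by
    have h3 : (e + 3).factorial ≤ (e + 3) ^ (e + 3) := Nat.factorial_le_pow _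
    have h4 : (e + 3) ^ (e + 3) ≤ (2 ^ (e + 3)) ^ (e + 3) :=
      Nat.pow_le_pow_left (Nat.lt_two_pow_self (n := e + 3)).le _
    rw [← pow_mul] at h4
    exact_mod_cast h3.trans h4
  have key : ((e + 3 : ℕ) : ℝ) * (EE e (k + 1) (2 ^ (8 * (e + 3))) (2 ^ (8 * (e + 3))) *
      ((e + 3).factorial * EE e (k + 1) (2 ^ (8 * (e + 3))) (2 ^ (8 * (e + 3))) ^ (e + 3) *
        (((2 ^ (8 * (e + 3)) : ℕ) : ℝ) ^ (k + 1) * bmax e))) ≤
      2 ^ (e + 3) * (2 ^ (8 * (e + 3) * (2 * (k + 1) + 1)) * (2 ^ ((e + 3) * (e + 3)) *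
        (2 ^ (8 * (e + 3) * (2 * (k + 1) + 1))) ^ (e + 3) *
          ((2 ^ (8 * (e + 3))) ^ (k + 1) * 2 ^ (8 * (e + 3))))) := by
    have h2' : bmax e ≤ 2 ^ (8 * (e + 3)) := by
      have := h2
      push_cast at this
      exact this
    have hE3 : EE e (k + 1) (2 ^ (8 * (e + 3))) (2 ^ (8 * (e + 3))) ^ (e + 3) ≤
        (2 ^ (8 * (e + 3) * (2 * (k + 1) + 1))) ^ (e + 3) := pow_le_pow_left₀ hE0 h1 _
    push_cast at hn ⊢
    gcongr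
  have hlt : (2 : ℝ) ^ (e + 3) * (2 ^ (8 * (e + 3) * (2 * (k + 1) + 1)) *
      (2 ^ ((e + 3) * (e + 3)) * (2 ^ (8 * (e + 3) * (2 * (k + 1) + 1))) ^ (e + 3) *
        ((2 ^ (8 * (e + 3))) ^ (k + 1) * 2 ^ (8 * (e + 3))))) <
      2 ^ (48 * (e + 3) ^ 2 * (k + 1)) := by
    simp only [← pow_mul, ← pow_add]
    apply pow_lt_pow_right₀ (by norm_num)
    have : e + 3 + (8 * (e + 3) * (2 * (k + 1) + 1) + ((e + 3) * (e + 3) +
        8 * (e + 3) * (2 * (k + 1) + 1) * (e + 3) + (8 * (e + 3) * (k + 1) + 8 * (e + 3)))) +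
        (e + 3) * (e * (32 * k + 23) + 72 * k + 28) = 48 * (e + 3) ^ 2 * (k + 1) := by ring
    have h5 : 0 < (e + 3) * (e * (32 * k + 23) + 72 * k + 28) := by positivity
    omega
  refine lt_of_le_of_lt ?_ (lt_of_le_of_lt key (hlt.trans_eq (by push_cast; rfl)))
  exact le_rfl

theorem int_abs_le {x : ℤ} {M : ℕ} (h : |(x : ℝ)| ≤ 2 ^ M) : |x| ≤ 2 ^ M := by
  exact_mod_cast h

theorem AA_aux (e K S H M : ℕ) (h : Par e K S S H) (hE : EE e K S S ≤ 2 ^ M) (i : Idx e K)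
    (j : Fin (e + 3)) : |AA e K S S i j| ≤ 2 ^ M := by
  rcases i with i | ⟨i, r⟩ | l
  · exact int_abs_le ((abs_Tm h (gen_crow i) le_rfl j).trans hE)
  · exact int_abs_le ((abs_Tm h (gen_row r) (by omega) j).trans hE)
  · simp only [AA]
    have h5 : (1 : ℤ) ≤ 2 ^ M := one_le_pow₀ (by norm_num)
    by_cases hl : j = l
    · subst hl; simpa using h5
    · rw [Pi.single_eq_of_ne hl]
      simp

theorem bb_aux (e K S H M : ℕ) (h : Par e K S S H) (T : ℝ) (hT1 : 1 ≤ T)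
    (hT : ((e + 3 : ℕ) : ℝ) * EE e K S S ≤ T)
    (h1 : (H : ℝ) ^ K * T + (S : ℝ) ^ K * ((H : ℝ) ^ K * bmax e) ≤ 2 ^ M)
    (h2 : 2 * (H : ℝ) ^ K ≤ 2 ^ M) (i : Idx e K) :
    |bb e K S S H i| ≤ 2 ^ M := by
  have hH1 := h.H_gt
  have hD1 := h.D_ge
  have hbm0 := bmax_pos e
  have hHK0 : (0 : ℝ) ≤ (H : ℝ) ^ K := by positivity
  have hsum : ∀ a : Fin (e + 3) → ℤ, Gen (GG e) a → ∀ m ≤ K,
      |∑ l, (Tm S S m a l : ℝ)| ≤ T := by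
    intro a ha m hm
    calc |∑ l, (Tm S S m a l : ℝ)| ≤ ∑ l, |(Tm S S m a l : ℝ)| := abs_sum_le_sum_abs _ _
      _ ≤ ∑ _l : Fin (e + 3), EE e K S S := sum_le_sum fun l _ => abs_Tm h ha hm l
      _ = ((e + 3 : ℕ) : ℝ) * EE e K S S := by simp
      _ ≤ T := hT
  have hp : (0 : ℝ) ≤ (S : ℝ) ^ K * ((H : ℝ) ^ K * bmax e) := by positivity
  apply int_abs_le
  rcases i with i | ⟨i, r⟩ | l
  · simp only [bb]
    push_cast
    rw [abs_mul, abs_of_nonneg hHK0]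
    have := mul_le_mul_of_nonneg_left (hsum _ (gen_crow i) K le_rfl) hHK0
    linarith
  · simp only [bb]
    push_cast
    refine (abs_add_le _ _).trans ?_
    have h5 := mul_le_mul_of_nonneg_left (hsum _ (gen_row r) (K - 1 - i) (by omega)) hHK0
    rw [abs_mul ((H : ℝ) ^ K), abs_of_nonneg hHK0]
    have h6 : (1 : ℝ) ≤ rhs e r := by exact_mod_cast rhs_pos r
    have h7 : |(S : ℝ) ^ (K - 1 - (i : ℕ)) * ((H : ℝ) ^ (i : ℕ) * (rhs e r : ℝ))| ≤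
        (S : ℝ) ^ K * ((H : ℝ) ^ K * bmax e) := by
      rw [abs_of_nonneg (by positivity)]
      have h8 : (S : ℝ) ^ (K - 1 - (i : ℕ)) ≤ (S : ℝ) ^ K := pow_le_pow_right₀ hD1 (by omega)
      have h9 : (H : ℝ) ^ (i : ℕ) ≤ (H : ℝ) ^ K := pow_le_pow_right₀ hH1.le i.2.le
      exact mul_le_mul h8 (mul_le_mul h9 (rhs_bmax r) (by linarith) (by positivity))
        (by positivity) (by positivity)
    linarith
  · simp only [bb]
    push_cast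
    rw [abs_of_nonneg (by positivity)]
    exact h2

theorem exp1 (e k : ℕ) : 8 * (e + 3) * (2 * (k + 1) + 1) ≤ 60 * ((e + 3) * (k + 1)) ^ 2 := by
  nlinarith [Nat.zero_le (e * k), Nat.zero_le (e ^ 2), Nat.zero_le (k ^ 2),
    Nat.zero_le (e * k ^ 2), Nat.zero_le (e ^ 2 * k), Nat.zero_le (e ^ 2 * k ^ 2)]

theorem exp2 (e k : ℕ) : 48 * (e + 3) ^ 2 * (k + 1) * (k + 1) +
    ((e + 3) + 8 * (e + 3) * (2 * (k + 1) + 1)) + 1 ≤ 60 * ((e + 3) * (k + 1)) ^ 2 := by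
  nlinarith [Nat.zero_le (e * k), Nat.zero_le (e ^ 2), Nat.zero_le (k ^ 2),
    Nat.zero_le (e * k ^ 2), Nat.zero_le (e ^ 2 * k), Nat.zero_le (e ^ 2 * k ^ 2)]

theorem exp3 (e k : ℕ) : 8 * (e + 3) * (k + 1) + (48 * (e + 3) ^ 2 * (k + 1) * (k + 1) +
    8 * (e + 3)) + 1 ≤ 60 * ((e + 3) * (k + 1)) ^ 2 := by
  nlinarith [Nat.zero_le (e * k), Nat.zero_le (e ^ 2), Nat.zero_le (k ^ 2),
    Nat.zero_le (e * k ^ 2), Nat.zero_le (e ^ 2 * k), Nat.zero_le (e ^ 2 * k ^ 2)]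

theorem AA_le (e k : ℕ) (i : Idx e (k + 1)) (j : Fin (e + 3)) :
    |AA e (k + 1) (2 ^ (8 * (e + 3))) (2 ^ (8 * (e + 3))) i j| ≤
      2 ^ (60 * ((e + 3) * (k + 1)) ^ 2) :=
  AA_aux e (k + 1) _ _ _ (par e k)
    ((EE_le e (k + 1)).trans (pow_le_pow_right₀ (by norm_num) (exp1 e k))) i j

theorem bb_le (e k : ℕ) (i : Idx e (k + 1)) :
    |bb e (k + 1) (2 ^ (8 * (e + 3))) (2 ^ (8 * (e + 3))) (2 ^ (48 * (e + 3) ^ 2 * (k + 1))) i| ≤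
      2 ^ (60 * ((e + 3) * (k + 1)) ^ 2) := by
  have hSr : ((2 ^ (8 * (e + 3)) : ℕ) : ℝ) = 2 ^ (8 * (e + 3)) := by push_cast; rfl
  have hHr : ((2 ^ (48 * (e + 3) ^ 2 * (k + 1)) : ℕ) : ℝ) = 2 ^ (48 * (e + 3) ^ 2 * (k + 1)) := by
    push_cast; rfl
  have hM : ∀ a : ℕ, a + 1 ≤ 60 * ((e + 3) * (k + 1)) ^ 2 →
      (2 : ℝ) ^ a ≤ 2 ^ (60 * ((e + 3) * (k + 1)) ^ 2) / 2 := by
    intro a ha
    rw [le_div_iff₀ (by norm_num), ← pow_succ]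
    exact pow_le_pow_right₀ (by norm_num) ha
  have hpos : (0 : ℝ) < 2 ^ (60 * ((e + 3) * (k + 1)) ^ 2) := by positivity
  refine bb_aux e (k + 1) _ _ _ (par e k) (2 ^ ((e + 3) + 8 * (e + 3) * (2 * (k + 1) + 1)))
    (one_le_pow₀ (by norm_num)) ?_ ?_ ?_ i
  · rw [pow_add]
    have h1 : ((e + 3 : ℕ) : ℝ) ≤ 2 ^ (e + 3) := by
      have := (Nat.lt_two_pow_self (n := e + 3)).le
      exact_mod_cast this
    exact mul_le_mul h1 (EE_le e (k + 1)) (zero_le_one.trans (EE_ge (par e k))) (by positivity)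
  · rw [hSr, hHr]
    have h1 : (((2 : ℝ) ^ (48 * (e + 3) ^ 2 * (k + 1))) ^ (k + 1)) *
        2 ^ ((e + 3) + 8 * (e + 3) * (2 * (k + 1) + 1)) ≤
          2 ^ (60 * ((e + 3) * (k + 1)) ^ 2) / 2 := by
      rw [← pow_mul, ← pow_add]
      exact hM _ (exp2 e k)
    have h2 : ((2 : ℝ) ^ (8 * (e + 3))) ^ (k + 1) *
        (((2 : ℝ) ^ (48 * (e + 3) ^ 2 * (k + 1))) ^ (k + 1) * bmax e) ≤
          2 ^ (60 * ((e + 3) * (k + 1)) ^ 2) / 2 := by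
      have h3 := bmax_le e
      rw [hSr] at h3
      calc _ ≤ ((2 : ℝ) ^ (8 * (e + 3))) ^ (k + 1) *
            (((2 : ℝ) ^ (48 * (e + 3) ^ 2 * (k + 1))) ^ (k + 1) * 2 ^ (8 * (e + 3))) := by gcongr
        _ ≤ _ := by
          rw [← pow_mul, ← pow_mul, ← pow_add, ← pow_add]
          exact hM _ (exp3 e k)
    linarith
  · rw [hHr]
    have h1 : (((2 : ℝ) ^ (48 * (e + 3) ^ 2 * (k + 1))) ^ (k + 1)) ≤
        2 ^ (60 * ((e + 3) * (k + 1)) ^ 2) / 2 := by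
      rw [← pow_mul]
      exact hM _ (by have := exp2 e k; omega)
    linarith

end Pool.Agent.J4.H81.Shadow
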