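import Pool.Agent.J4.H81.Shadow.Local

set_option autoImplicit false

/-!
# One level of the trap
-/

namespace Pool.Agent.J4.H81.Shadow

open Set

variable {n : ℕ} {Q W O : Set (Fin n → ℝ)} {c v : Fin n → ℝ}

/-- the hypotheses on the sets -/
structure Level (Q W O : Set (Fin n → ℝ)) (v : Fin n → ℝ) : Prop where
  convQ : Convex ℝ Q
  closedQ : IsClosed Q
  openO : IsOpen O
  convO : Convex ℝ O
  sub : O ⊆ W
  ext : Q.extremePoints ℝ ⊆ O
  start : v ∈ O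

open Classical in
theorem card_step {σ : Type} [Fintype σ] {R : Set (Fin n → ℝ)} {z x : Fin n → ℝ}
    (u : σ → Fin n → ℝ) (hu : Function.Injective u) (t : σ → ℝ)
    (hU : ∀ s, UMax R c z (u s) (t s)) {τ τ' : ℝ} (hx : ∀ r, τ ≤ r → r ≤ τ' →
      Optimal R (z + r • c) x) :
    (Finset.univ.filter fun s => t s < τ').card ≤ (Finset.univ.filter fun s => t s < τ).card + 1 := by
  have h1 : (Finset.univ.filter fun s => t s < τ') ⊆ (Finset.univ.filter fun s => t s < τ) ∪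
      (Finset.univ.filter fun s => τ ≤ t s ∧ t s ≤ τ') := by
    intro s hs
    simp only [Finset.mem_filter, Finset.mem_univ, true_and, Finset.mem_union] at hs ⊢
    rcases lt_or_ge (t s) τ with h | h
    · exact Or.inl h
    · exact Or.inr ⟨h, hs.le⟩
  have h2 : (Finset.univ.filter fun s => τ ≤ t s ∧ t s ≤ τ').card ≤ 1 := by
    rw [Finset.card_le_one]
    intro s hs s' hs'
    simp only [Finset.mem_filter, Finset.mem_univ, true_and] at hs hs'
    apply hu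
    rw [← (hU s).eq (hx _ hs.1 hs.2), ← (hU s').eq (hx _ hs'.1 hs'.2)]
  calc _ ≤ _ := Finset.card_le_card h1
    _ ≤ _ := Finset.card_union_le _ _
    _ ≤ _ := by omega

open Classical in
theorem inv {σ : Type} [Fintype σ] (hL : Level Q W O v) (u : σ → Fin n → ℝ)
    (hu : Function.Injective u)
    (hUM : ∀ z x, z ≠ 0 → x ∈ O → Optimal Q z x →
      ∃ t : σ → ℝ, (∀ s, 0 < t s) ∧ ∀ s, UMax (Q ∩ W) c z (u s) (t s))
    {k N : ℕ} {z x : Fin n → ℝ} (h : Run (Q ∩ W) c v k N z x) :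
    ∃ (k₁ N₁ : ℕ) (z₁ x₁ : Fin n → ℝ), k₁ ≤ k ∧ N₁ ≤ N ∧ Run Q c v k₁ N₁ z₁ x₁ ∧
      ((k₁ = k ∧ N₁ = N ∧ z₁ = z ∧ x₁ = x ∧ x ∈ O) ∨ Ray Q c z₁ x₁) ∧
      (k₁ = k → ∃ (τ : ℝ) (t : σ → ℝ), Optimal (Q ∩ W) (z + τ • c) x ∧
        (∀ s, UMax (Q ∩ W) c z (u s) (t s)) ∧
        (Finset.univ.filter fun s => t s < τ).card ≤ N) := by
  have hzero : ∀ z x, z ≠ 0 → x ∈ O → Optimal (Q ∩ W) z x → ∀ N : ℕ,
      ∃ (τ : ℝ) (t : σ → ℝ), Optimal (Q ∩ W) (z + τ • c) x ∧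
        (∀ s, UMax (Q ∩ W) c z (u s) (t s)) ∧
        (Finset.univ.filter fun s => t s < τ).card ≤ N := by
    intro z x hz hxO hx N
    obtain ⟨t, ht0, ht⟩ := hUM z x hz hxO (loc_opt hL.convQ hL.openO hL.sub hxO hx)
    refine ⟨0, t, by simpa using hx, ht, ?_⟩
    rw [Finset.filter_false_of_mem fun s _ => not_lt.2 (ht0 s).le]
    simp
  induction h with
  | start z hz h =>
    exact ⟨0, 0, z, v, le_rfl, le_rfl,
      Run.start z hz (loc_opt hL.convQ hL.openO hL.sub hL.start h),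
      Or.inl ⟨rfl, rfl, rfl, rfl, hL.start⟩, fun _ => hzero z v hz hL.start h 0⟩
  | @change k N z x z' h hz hx ih =>
    obtain ⟨k₁, N₁, z₁, x₁, h1, h2, h3, h4, h5⟩ := ih
    rcases h4 with ⟨rfl, rfl, rfl, rfl, hxO⟩ | h4
    · exact ⟨k₁ + 1, N₁, z', x₁, le_rfl, le_rfl,
        Run.change z' h3 hz (loc_opt hL.convQ hL.openO hL.sub hxO hx),
        Or.inl ⟨rfl, rfl, rfl, rfl, hxO⟩, fun _ => hzero z' x₁ hz hxO hx N₁⟩
    · exact ⟨k₁, N₁, z₁, x₁, by omega, h2, h3, Or.inr h4, fun h6 => by omega⟩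
  | @pivot k N z x y h hy ih =>
    obtain ⟨k₁, N₁, z₁, x₁, h1, h2, h3, h4, h5⟩ := ih
    have hτ : k₁ = k → ∃ (τ : ℝ) (t : σ → ℝ), Optimal (Q ∩ W) (z + τ • c) y ∧
        (∀ s, UMax (Q ∩ W) c z (u s) (t s)) ∧
        (Finset.univ.filter fun s => t s < τ).card ≤ N + 1 := by
      intro h6
      obtain ⟨τ, t, h7, h8, h9⟩ := h5 h6
      obtain ⟨τ', h10, h11, h12⟩ := step h7 hy
      refine ⟨τ', t, h11, h8, ?_⟩
      have := card_step u hu t h8 h12
      omega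
    rcases h4 with ⟨rfl, rfl, rfl, rfl, hxO⟩ | h4
    · by_cases hyO : y ∈ O
      · exact ⟨k₁, N₁ + 1, z₁, y, le_rfl, le_rfl,
          Run.pivot y h3 (loc_pivot hL.convQ hL.openO hL.sub hxO hyO hy),
          Or.inl ⟨rfl, rfl, rfl, rfl, hyO⟩, hτ⟩
      · exact ⟨k₁, N₁, z₁, x₁, le_rfl, by omega, h3,
          Or.inr (exit hL.convQ hL.closedQ hL.openO hL.convO hL.sub hL.ext hxO hyO hy), hτ⟩
    · exact ⟨k₁, N₁, z₁, x₁, h1, by omega, h3, Or.inr h4, hτ⟩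

/-- every run with less than `j` changes which ends with an unbounded step is long -/
def Good (Q : Set (Fin n → ℝ)) (c v : Fin n → ℝ) (j L : ℕ) : Prop :=
  ∀ (k N : ℕ) (z x : Fin n → ℝ), k < j → Run Q c v k N z x → Ray Q c z x → L ≤ N + 1

open Classical in
theorem good_succ {σ : Type} [Fintype σ] (hL : Level Q W O v) (u : σ → Fin n → ℝ)
    (hu : Function.Injective u)
    (hUM : ∀ z x, z ≠ 0 → x ∈ O → Optimal Q z x →
      ∃ t : σ → ℝ, (∀ s, 0 < t s) ∧ ∀ s, UMax (Q ∩ W) c z (u s) (t s))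
    {j : ℕ} (hj : Good Q c v j (Fintype.card σ)) :
    Good (Q ∩ W) c v (j + 1) (Fintype.card σ) := by
  intro k N z x hk hrun hray
  obtain ⟨k₁, N₁, z₁, x₁, h1, h2, h3, h4, h5⟩ := inv hL u hu hUM hrun
  by_cases hkk : k₁ = k
  · obtain ⟨τ, t, h6, h7, h8⟩ := h5 hkk
    have h9 := step_ray h6 hray
    have h10 : (Finset.univ : Finset σ) ⊆ (Finset.univ.filter fun s => t s < τ) ∪
        (Finset.univ.filter fun s => τ ≤ t s) := by
      intro s _
      simp only [Finset.mem_filter, Finset.mem_univ, true_and, Finset.mem_union]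
      exact lt_or_ge _ _
    have h11 : (Finset.univ.filter fun s => τ ≤ t s).card ≤ 1 := by
      rw [Finset.card_le_one]
      intro s hs s' hs'
      simp only [Finset.mem_filter, Finset.mem_univ, true_and] at hs hs'
      apply hu
      rw [← h9 _ _ (h7 s) hs, ← h9 _ _ (h7 s') hs']
    calc Fintype.card σ = (Finset.univ : Finset σ).card := rfl
      _ ≤ _ := Finset.card_le_card h10
      _ ≤ _ := Finset.card_union_le _ _
      _ ≤ N + 1 := by omega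
  · rcases h4 with ⟨h6, -⟩ | h4
    · exact absurd h6 hkk
    · have := hj k₁ N₁ z₁ x₁ (by omega) h3 h4
      omega

theorem good_final (hL : Level Q W O v) {j L : ℕ} (hj : Good Q c v j L)
    (hopt : ∀ x ∈ O, ¬ Optimal (Q ∩ W) c x) {k N : ℕ} {z x : Fin n → ℝ} (hk : k < j)
    (hrun : Run (Q ∩ W) c v k N z x) (hx : Optimal (Q ∩ W) c x) : L ≤ N + 1 := by
  obtain ⟨k₁, N₁, z₁, x₁, h1, h2, h3, h4, -⟩ := inv (σ := Empty) hL (fun e => e.elim)
    (fun e => e.elim) (fun z x _ _ _ => ⟨fun e => e.elim, fun e => e.elim, fun e => e.elim⟩) hrun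
  rcases h4 with ⟨rfl, rfl, rfl, rfl, hxO⟩ | h4
  · exact absurd hx (hopt _ hxO)
  · have := hj k₁ N₁ z₁ x₁ (by omega) h3 h4
    omega

end Pool.Agent.J4.H81.Shadow
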