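import Pool.Agent.J4.H81.Shadow.Cube
import Pool.Agent.J4.H81.Shadow.Trap

set_option autoImplicit false

/-!
# The compression maps
-/

namespace Pool.Agent.J4.H81.Shadow

open Finset

variable {e : ℕ}

def Tm (D B m : ℕ) (a : Fin (e + 3) → ℤ) : Fin (e + 3) → ℤ := fun j =>
  if j = Fin.last _ then D ^ m * a j
  else if j = 0 then D ^ m * (a j - m * B * a (Fin.last _)) else a j

noncomputable def Phi (D B m : ℕ) (p : Fin (e + 3) → ℝ) : Fin (e + 3) → ℝ := fun j =>
  if j = Fin.last _ then p j - m * B * p 0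
  else if j = 0 then p j else p j / D ^ m

noncomputable def PhiInv (D B m : ℕ) (p : Fin (e + 3) → ℝ) : Fin (e + 3) → ℝ := fun j =>
  if j = Fin.last _ then p j + m * B * p 0
  else if j = 0 then p j else D ^ m * p j

noncomputable def th (D B m : ℕ) (z : Fin (e + 3) → ℝ) : Fin (e + 3) → ℝ := fun j =>
  if j = Fin.last _ then z j
  else if j = 0 then z j + m * B * z (Fin.last _) else D ^ m * z j

theorem zero_ne_last : (0 : Fin (e + 3)) ≠ Fin.last _ := by
  intro h
  have := congrArg Fin.val h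
  simp at this

theorem sum_trick {f g : Fin (e + 3) → ℝ} (C : ℝ)
    (h : ∀ j, f j = g j + ((if j = Fin.last _ then C else 0) - (if j = 0 then C else 0))) :
    ∑ j, f j = ∑ j, g j := by
  rw [sum_congr rfl fun j _ => h j, sum_add_distrib, sum_sub_distrib]
  simp

theorem dz_Tm {D : ℕ} (hD : 0 < D) (B m : ℕ) (a : Fin (e + 3) → ℤ) (p : Fin (e + 3) → ℝ) :
    dz (Tm D B m a) p = D ^ m * dz a (Phi D B m p) := by
  have hD' : (D : ℝ) ^ m ≠ 0 := by positivity
  unfold dz
  rw [mul_sum]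
  apply sum_trick (D ^ m * (m * B * a (Fin.last _)) * p 0)
  intro j
  unfold Tm Phi
  by_cases h1 : j = Fin.last _
  · subst h1
    rw [if_pos rfl, if_pos rfl, if_pos rfl, if_neg zero_ne_last.symm]
    push_cast
    ring
  · by_cases h2 : j = 0
    · subst h2
      rw [if_neg h1, if_neg h1, if_neg h1, if_pos rfl, if_pos rfl, if_pos rfl]
      push_cast
      ring
    · simp only [h1, h2, if_false]
      field_simp
      ring

theorem dot_PhiInv (D B m : ℕ) (z q : Fin (e + 3) → ℝ) :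
    z ⬝ᵥ PhiInv D B m q = th D B m z ⬝ᵥ q := by
  unfold dotProduct
  apply sum_trick (z (Fin.last _) * (m * B * q 0))
  intro j
  unfold PhiInv th
  by_cases h1 : j = Fin.last _
  · subst h1
    rw [if_pos rfl, if_pos rfl, if_pos rfl, if_neg zero_ne_last.symm]
    ring
  · by_cases h2 : j = 0
    · subst h2
      rw [if_neg h1, if_neg h1, if_neg h1, if_pos rfl, if_pos rfl, if_pos rfl]
      ring
    · simp only [h1, h2, if_false]
      ring

theorem PhiInv_Phi {D : ℕ} (hD : 0 < D) (B m : ℕ) (p : Fin (e + 3) → ℝ) :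
    PhiInv D B m (Phi D B m p) = p := by
  have hD' : (D : ℝ) ^ m ≠ 0 := by positivity
  ext j
  unfold PhiInv Phi
  by_cases h1 : j = Fin.last _
  · subst h1
    rw [if_pos rfl, if_pos rfl, if_neg zero_ne_last, if_pos rfl]
    ring
  · by_cases h2 : j = 0
    · subst h2
      rw [if_neg h1, if_pos rfl, if_neg h1, if_pos rfl]
    · simp only [h1, h2, if_false]
      field_simp

theorem Phi_PhiInv {D : ℕ} (hD : 0 < D) (B m δ : ℕ) (q : Fin (e + 3) → ℝ) (j : Fin (e + 3)) :
    Phi D B (m + δ) (PhiInv D B m q) j = if j = Fin.last _ then q j - δ * B * q 0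
      else if j = 0 then q j else q j / D ^ δ := by
  have hD' : (D : ℝ) ^ m ≠ 0 := by positivity
  unfold PhiInv Phi
  by_cases h1 : j = Fin.last _
  · subst h1
    rw [if_pos rfl, if_pos rfl]
    simp only [if_true, zero_ne_last, if_false]
    push_cast
    ring
  · by_cases h2 : j = 0
    · subst h2
      simp [h1]
    · simp only [h1, h2, if_false]
      rw [pow_add]
      field_simp

theorem Phi_PhiInv_self {D : ℕ} (hD : 0 < D) (B m : ℕ) (q : Fin (e + 3) → ℝ) :
    Phi D B m (PhiInv D B m q) = q := by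
  ext j
  have := Phi_PhiInv hD B m 0 q j
  rw [add_zero] at this
  rw [this]
  simp

theorem Phi_sub (D B m : ℕ) (p q : Fin (e + 3) → ℝ) :
    Phi D B m (p - q) = Phi D B m p - Phi D B m q := by
  ext j
  unfold Phi
  simp only [Pi.sub_apply]
  split_ifs <;> ring

theorem dot_expand (w q : Fin (e + 3) → ℝ) :
    w ⬝ᵥ q = w (Fin.last _) * q (Fin.last _) + cX w 0 * cX q 0 +
      ∑ k ∈ range (e + 1), cX w (k + 1) * cX q (k + 1) := by
  unfold dotProduct
  rw [Fin.sum_univ_castSucc]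
  have h1 : ∑ i : Fin (e + 2), w i.castSucc * q i.castSucc =
      ∑ k ∈ range (e + 2), cX w k * cX q k := by
    rw [← Fin.sum_univ_eq_sum_range]
    apply sum_congr rfl
    intro i _
    unfold cX
    rw [dif_pos i.2, dif_pos i.2]
    rfl
  rw [h1, sum_range_succ']
  ring

/-- generic rows -/
structure Gen (G : ℝ) (a : Fin (e + 3) → ℤ) : Prop where
  last : a (Fin.last _) = 1
  bound : ∀ j, |(a j : ℝ)| ≤ G

theorem Gen.le {G : ℝ} {a : Fin (e + 3) → ℤ} (h : Gen G a) (q : Fin (e + 3) → ℝ) :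
    dz a q ≤ q (Fin.last _) + G * ∑ j : Fin (e + 2), |q j.castSucc| := by
  unfold dz
  rw [Fin.sum_univ_castSucc, h.last, mul_sum, Int.cast_one, one_mul, add_comm]
  apply add_le_add_right
  apply sum_le_sum
  intro j _
  calc (a j.castSucc : ℝ) * q j.castSucc ≤ |(a j.castSucc : ℝ) * q j.castSucc| := le_abs_self _
    _ = |(a j.castSucc : ℝ)| * |q j.castSucc| := abs_mul _ _
    _ ≤ G * |q j.castSucc| := mul_le_mul_of_nonneg_right (h.bound _) (abs_nonneg _)

/-- the cone rows -/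
def crow (e : ℕ) (i : Fin (e + 3)) : Fin (e + 3) → ℤ := exi e + ex e i

theorem abs_ex (k : ℕ) (j : Fin (e + 3)) : |((ex e k j : ℤ) : ℝ)| ≤ 1 := by
  unfold ex; split_ifs <;> simp

theorem abs_exi (j : Fin (e + 3)) : |((exi e j : ℤ) : ℝ)| ≤ 1 := by
  unfold exi; split_ifs <;> simp

/-- the bound for generic rows -/
noncomputable def GG (e : ℕ) : ℝ := 4 * gg e + 2

theorem GG_pos (e : ℕ) : 2 < GG e := by
  have : (0 : ℝ) < gg e := by exact_mod_cast gg_pos e
  unfold GG; linarith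

theorem ex_last (k : ℕ) : ex e k (Fin.last _) = 0 := by
  unfold ex
  rw [if_neg]
  rintro ⟨h1, h2⟩
  simp only [Fin.val_last] at h1
  omega

theorem exi_last : exi e (Fin.last _) = 1 := by simp [exi]

theorem gen_crow (i : Fin (e + 3)) : Gen (GG e) (crow e i) := by
  refine ⟨by simp [crow, ex_last, exi_last], fun j => ?_⟩
  simp only [crow, Pi.add_apply, Int.cast_add]
  have h1 := abs_ex (i : ℕ) j
  have h2 := abs_exi j
  have h3 := GG_pos e
  have h4 := abs_add_le ((exi e j : ℤ) : ℝ) ((ex e i j : ℤ) : ℝ)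
  linarith

theorem gen_row (r : Option (Fin (e + 2) × Bool)) : Gen (GG e) (row e r) := by
  rcases r with _ | ⟨k, s⟩
  · refine ⟨by simp [row, ex_last, exi_last], fun j => ?_⟩
    simp only [row, Pi.sub_apply, Int.cast_sub]
    have h1 := abs_ex 1 j
    have h2 := abs_exi j
    have h3 := GG_pos e
    have h4 := abs_sub ((exi e j : ℤ) : ℝ) ((ex e 1 j : ℤ) : ℝ)
    linarith
  · refine ⟨by simp [row, ex_last, exi_last], fun j => ?_⟩
    simp only [row, Pi.sub_apply, Pi.add_apply, Pi.smul_apply, smul_eq_mul, Int.cast_sub,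
      Int.cast_add, Int.cast_mul, sgz_cast, Int.cast_ofNat]
    have h1 := abs_ex 1 j
    have h2 := abs_exi j
    have h3 := abs_sub ((exi e j : ℤ) : ℝ) ((ex e 1 j : ℤ) : ℝ)
    have hg : (0 : ℝ) < gg e := by exact_mod_cast gg_pos e
    have h5 : |sg s * ((ex e k j : ℤ) : ℝ)| ≤ 1 := by rw [abs_sg_mul]; exact abs_ex _ _
    have h6 : |2 * ((ex e (k + 1) j : ℤ) : ℝ)| ≤ 2 := by
      rw [abs_mul, abs_two]; have := abs_ex ((k : ℕ) + 1) j; linarith
    have h7 := abs_ex ((k : ℕ) + 2) j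
    have h8 := abs_sub (sg s * ((ex e k j : ℤ) : ℝ) + 2 * ((ex e (k + 1) j : ℤ) : ℝ))
      ((ex e (k + 2) j : ℤ) : ℝ)
    have h9 := abs_add_le (sg s * ((ex e k j : ℤ) : ℝ)) (2 * ((ex e (k + 1) j : ℤ) : ℝ))
    have h10 : |(gg e : ℝ) * (sg s * ((ex e k j : ℤ) : ℝ) + 2 * ((ex e (k + 1) j : ℤ) : ℝ) -
        ((ex e (k + 2) j : ℤ) : ℝ))| ≤ gg e * 4 := by
      rw [abs_mul, abs_of_pos hg]
      exact mul_le_mul_of_nonneg_left (by linarith) hg.le
    have h11 := abs_add_le (((exi e j : ℤ) : ℝ) - ((ex e 1 j : ℤ) : ℝ))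
      ((gg e : ℝ) * (sg s * ((ex e k j : ℤ) : ℝ) + 2 * ((ex e (k + 1) j : ℤ) : ℝ) -
        ((ex e (k + 2) j : ℤ) : ℝ)))
    unfold GG
    linarith

/-- the parameters -/
structure Par (e K D B H : ℕ) : Prop where
  hD : GG e * 9 ^ (e + 2) ≤ D
  hB : GG e * (1 + (e + 1) * 5 ^ (e + 2)) + hh e + 2 * 5 ^ (e + 2) + 2 ≤ B
  hH : ((e + 3 : ℕ) : ℝ) * ((D ^ K * (GG e + K * B)) * ((e + 3).factorial *
    (D ^ K * (GG e + K * B)) ^ (e + 3) * (D ^ K * (gg e * 5 ^ (e + 2) + 2 * hh e)))) < H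

variable {K D B H : ℕ}

theorem Par.D_ge (h : Par e K D B H) : (1 : ℝ) ≤ D := by
  have h1 := GG_pos e
  have h2 : (1 : ℝ) ≤ 9 ^ (e + 2) := one_le_pow₀ (by norm_num)
  have h3 := h.hD
  nlinarith

theorem Par.D_pos (h : Par e K D B H) : 0 < D := by
  have := h.D_ge
  exact_mod_cast (by linarith : (0 : ℝ) < D)

theorem Par.B_ge (h : Par e K D B H) : GG e + 2 ≤ B := by
  have h1 := GG_pos e
  have h2 : (0 : ℝ) ≤ (e + 1) * 5 ^ (e + 2) := by positivity
  have h3 : (0 : ℝ) < hh e := by exact_mod_cast hh_pos e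
  have h4 : (0 : ℝ) ≤ 2 * 5 ^ (e + 2) := by positivity
  have h5 := h.hB
  nlinarith

/-- directions in which the rows of the inner levels do not increase -/
theorem inner_dir (h : Par e K D B H) {a : Fin (e + 3) → ℤ} (ha : Gen (GG e) a) (m δ : ℕ)
    (q : Fin (e + 3) → ℝ)
    (hq : q (Fin.last _) - δ * B * q 0 + GG e * (|q 0| + (∑ j : Fin (e + 1),
      |q j.succ.castSucc|) / D ^ δ) ≤ 0) : dz (Tm D B (m + δ) a) (PhiInv D B m q) ≤ 0 := by
  have hD := h.D_pos
  rw [dz_Tm hD]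
  apply mul_nonpos_of_nonneg_of_nonpos (by positivity)
  refine (ha.le _).trans ?_
  have h1 : Phi D B (m + δ) (PhiInv D B m q) (Fin.last _) = q (Fin.last _) - δ * B * q 0 := by
    rw [Phi_PhiInv hD]; simp
  have h2 : ∑ j : Fin (e + 2), |Phi D B (m + δ) (PhiInv D B m q) j.castSucc| =
      |q 0| + (∑ j : Fin (e + 1), |q j.succ.castSucc|) / D ^ δ := by
    rw [Fin.sum_univ_succ, Phi_PhiInv hD, sum_div]
    congr 1
    apply sum_congr rfl
    intro j _
    rw [Phi_PhiInv hD]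
    have h3 : (j.succ.castSucc : Fin (e + 3)) ≠ Fin.last _ := (Fin.castSucc_lt_last _).ne
    have h4 : (j.succ.castSucc : Fin (e + 3)) ≠ 0 := by
      intro h5
      have := congrArg Fin.val h5
      simp at this
    rw [if_neg h3, if_neg h4, abs_div, abs_of_pos (by positivity : (0 : ℝ) < D ^ δ)]
  rw [h1, h2]
  exact hq

end Pool.Agent.J4.H81.Shadow
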