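import Pool.Agent.J4.H81.Shadow.Levels

set_option autoImplicit false

/-!
# The tube
-/

namespace Pool.Agent.J4.H81.Shadow

open Finset

variable {e K D B H : ℕ}

/-- the objective function -/
def c0 (e : ℕ) : Fin (e + 3) → ℝ := Pi.single 0 1

theorem th_dir {w x z : Fin (e + 3) → ℝ} {j : ℕ} (h : Par e K D B H) (hj : j < K)
    (hx : Optimal (QQ D B H K w j) z x) (q : Fin (e + 3) → ℝ)
    (hq : ∀ δ : ℕ, 1 ≤ δ → δ ≤ K → q (Fin.last _) - δ * B * q 0 + GG e * (|q 0| +
      (∑ i : Fin (e + 1), |q i.succ.castSucc|) / D ^ δ) ≤ 0) :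
    th D B (K - 1 - j) z ⬝ᵥ q ≤ 0 := by
  have h1 : x + PhiInv D B (K - 1 - j) q ∈ QQ D B H K w j :=
    rec_QQ hj hx.1 fun a δ ha h1 h2 => inner_dir h ha _ δ q (hq δ h1 h2)
  have h2 := hx.2 _ h1
  rw [dotProduct_add, dot_PhiInv] at h2
  linarith

theorem tube {w x z : Fin (e + 3) → ℝ} {j : ℕ} (h : Par e K D B H) (hj : j < K) (hz : z ≠ 0)
    (hx : Optimal (QQ D B H K w j) z x) :
    0 < th D B (K - 1 - j) z (Fin.last _) ∧
    th D B (K - 1 - j) z 0 ≤ - 2 * th D B (K - 1 - j) z (Fin.last _) ∧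
    ∀ i : Fin (e + 1), |th D B (K - 1 - j) z i.succ.castSucc| ≤
      1 / 9 ^ (e + 2) * th D B (K - 1 - j) z (Fin.last _) := by
  set θ := th D B (K - 1 - j) z with hθ
  have hG := GG_pos e
  have hB := h.B_ge
  have hD1 := h.D_ge
  have hD0 : (0 : ℝ) < D := by linarith
  have hne0 : ∀ i : Fin (e + 1), (i.succ.castSucc : Fin (e + 3)) ≠ 0 := by
    intro i h5
    have := congrArg Fin.val h5
    simp at this
  have hnel : ∀ i : Fin (e + 1), (i.succ.castSucc : Fin (e + 3)) ≠ Fin.last _ :=
    fun i => (Fin.castSucc_lt_last _).ne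
  have ha : ∀ (σ : ℝ), |σ| = 1 → ∀ i : Fin (e + 1),
      θ i.succ.castSucc * σ - θ (Fin.last _) * (1 / 9 ^ (e + 2)) ≤ 0 := by
    intro σ hσ i
    have h1 := th_dir h hj hx (Pi.single i.succ.castSucc σ -
      Pi.single (Fin.last _) (1 / 9 ^ (e + 2))) (fun δ h1 h2 => by
        have e1 : (Pi.single i.succ.castSucc σ : Fin (e + 3) → ℝ) (Fin.last _) = 0 :=
          Pi.single_eq_of_ne (hnel i).symm _
        have e2 : (Pi.single i.succ.castSucc σ : Fin (e + 3) → ℝ) 0 = 0 :=
          Pi.single_eq_of_ne (hne0 i).symm _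
        have e3 : (Pi.single (Fin.last _) (1 / 9 ^ (e + 2)) : Fin (e + 3) → ℝ) 0 = 0 :=
          Pi.single_eq_of_ne zero_ne_last _
        have e4 : ∀ l : Fin (e + 1), (Pi.single (Fin.last _) (1 / 9 ^ (e + 2)) :
            Fin (e + 3) → ℝ) l.succ.castSucc = 0 := fun l => Pi.single_eq_of_ne (hnel l) _
        have e5 : ∑ l : Fin (e + 1), |(Pi.single i.succ.castSucc σ -
            Pi.single (Fin.last _) (1 / 9 ^ (e + 2)) : Fin (e + 3) → ℝ) l.succ.castSucc| = 1 := by
          rw [Finset.sum_eq_single i]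
          · simp only [Pi.sub_apply, e4, sub_zero, Pi.single_eq_same, hσ]
          · intro l _ hl
            simp only [Pi.sub_apply, e4, sub_zero]
            rw [Pi.single_eq_of_ne, abs_zero]
            intro h'
            apply hl
            have := congrArg Fin.val h'
            simp at this
            exact Fin.ext this
          · intro h'; exact absurd (mem_univ _) h'
        rw [e5]
        simp only [Pi.sub_apply, e1, e2, e3, Pi.single_eq_same, sub_self, mul_zero, sub_zero,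
          abs_zero, zero_add, zero_sub]
        have h3 : (D : ℝ) ≤ D ^ δ := by
          calc (D : ℝ) = D ^ 1 := (pow_one _).symm
            _ ≤ D ^ δ := pow_le_pow_right₀ hD1 h1
        have h4 : GG e * (1 / (D : ℝ) ^ δ) ≤ 1 / 9 ^ (e + 2) := by
          rw [mul_one_div, div_le_div_iff₀ (by positivity) (by positivity), one_mul]
          exact h.hD.trans h3
        linarith)
    rw [dotProduct_sub, dotProduct_single, dotProduct_single] at h1
    exact h1
  have hb : θ 0 + 2 * θ (Fin.last _) ≤ 0 := by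
    have h1 := th_dir h hj hx (Pi.single 0 1 + Pi.single (Fin.last _) 2) (fun δ h1 h2 => by
        have e1 : (Pi.single 0 1 : Fin (e + 3) → ℝ) (Fin.last _) = 0 :=
          Pi.single_eq_of_ne zero_ne_last.symm _
        have e3 : (Pi.single (Fin.last _) 2 : Fin (e + 3) → ℝ) 0 = 0 :=
          Pi.single_eq_of_ne zero_ne_last _
        have e5 : ∑ l : Fin (e + 1), |(Pi.single 0 1 +
            Pi.single (Fin.last _) 2 : Fin (e + 3) → ℝ) l.succ.castSucc| = 0 := by
          apply sum_eq_zero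
          intro l _
          simp only [Pi.add_apply]
          rw [Pi.single_eq_of_ne (hne0 l), Pi.single_eq_of_ne (hnel l), add_zero, abs_zero]
        rw [e5]
        simp only [Pi.add_apply, e1, e3, Pi.single_eq_same, zero_div, add_zero, zero_add, mul_one,
          abs_one]
        have h3 : (1 : ℝ) ≤ δ := by exact_mod_cast h1
        nlinarith)
    rw [dotProduct_add, dotProduct_single, dotProduct_single] at h1
    linarith
  have hc : - θ 0 - (K * B + GG e) * θ (Fin.last _) ≤ 0 := by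
    have h1 := th_dir h hj hx (Pi.single 0 (-1) + Pi.single (Fin.last _) (-(K * B + GG e)))
      (fun δ h1 h2 => by
        have e1 : (Pi.single 0 (-1) : Fin (e + 3) → ℝ) (Fin.last _) = 0 :=
          Pi.single_eq_of_ne zero_ne_last.symm _
        have e3 : (Pi.single (Fin.last _) (-(K * B + GG e)) : Fin (e + 3) → ℝ) 0 = 0 :=
          Pi.single_eq_of_ne zero_ne_last _
        have e5 : ∑ l : Fin (e + 1), |(Pi.single 0 (-1) +
            Pi.single (Fin.last _) (-(K * B + GG e)) : Fin (e + 3) → ℝ) l.succ.castSucc| = 0 := by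
          apply sum_eq_zero
          intro l _
          simp only [Pi.add_apply]
          rw [Pi.single_eq_of_ne (hne0 l), Pi.single_eq_of_ne (hnel l), add_zero, abs_zero]
        rw [e5]
        simp only [Pi.add_apply, e1, e3, Pi.single_eq_same, zero_div, add_zero, zero_add,
          abs_neg, abs_one, mul_one, mul_neg]
        have h3 : (δ : ℝ) ≤ K := by exact_mod_cast h2
        nlinarith)
    rw [dotProduct_add, dotProduct_single, dotProduct_single] at h1
    linarith
  have hl : 0 ≤ θ (Fin.last _) := by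
    have h1 := ha 1 (by simp) 0
    have h2 := ha (-1) (by simp) 0
    have h3 : (0 : ℝ) < 1 / 9 ^ (e + 2) := by positivity
    nlinarith
  have hI : ∀ i : Fin (e + 1), |θ i.succ.castSucc| ≤ 1 / 9 ^ (e + 2) * θ (Fin.last _) := by
    intro i
    have h1 := ha 1 (by simp) i
    have h2 := ha (-1) (by simp) i
    rw [abs_le]
    constructor <;> linarith
  refine ⟨?_, by linarith, hI⟩
  rcases eq_or_lt_of_le hl with h0 | h0
  · exfalso
    apply hz
    have hm : ∀ m : ℕ, (D : ℝ) ^ m ≠ 0 := fun m => by positivity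
    have hzl : z (Fin.last _) = 0 := by
      have : θ (Fin.last _) = z (Fin.last _) := by rw [hθ]; simp [th]
      rw [← this, ← h0]
    have hz0 : z 0 = 0 := by
      have h5 : θ 0 = z 0 := by
        rw [hθ]; simp only [th, zero_ne_last, if_false, if_true]; rw [hzl, mul_zero, add_zero]
      rw [← h5]
      rw [← h0] at hb hc
      linarith
    ext l
    by_cases h1 : l = Fin.last _
    · rw [h1, hzl]; rfl
    · by_cases h2 : l = 0
      · rw [h2, hz0]; rfl
      · have h3 : ∃ i : Fin (e + 1), l = i.succ.castSucc := by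
          have hl1 : (l : ℕ) ≠ 0 := fun h' => h2 (Fin.ext h')
          have hl2 : (l : ℕ) ≠ e + 2 := fun h' => h1 (Fin.ext h')
          have hl3 := l.2
          refine ⟨⟨l - 1, by omega⟩, Fin.ext ?_⟩
          simp
          omega
        obtain ⟨i, rfl⟩ := h3
        have h4 := hI i
        rw [← h0, mul_zero] at h4
        have h5 : θ i.succ.castSucc = 0 := abs_eq_zero.1 (le_antisymm h4 (abs_nonneg _))
        rw [hθ] at h5
        simp only [th, h1, h2, if_false] at h5
        exact (mul_eq_zero.1 h5).resolve_left (hm _)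
  · exact h0

/-- the sign sequence -/
def sext {e : ℕ} (s : Fin (e + 2) → Bool) (k : ℕ) : Bool :=
  if h : k < e + 2 then s ⟨k, h⟩ else false

noncomputable def Us {e : ℕ} (s : Fin (e + 2) → Bool) : ℕ → ℝ :=
  (exists_U (e + 2) (sext s)).choose

theorem Us_spec {e : ℕ} (s : Fin (e + 2) → Bool) : (∀ k, e + 2 ≤ k → Us s k = 0) ∧
    (∀ k < e + 2, Us s k = sg (sext s k) * (5 ^ (e + 2 - k) - 2 * Us s (k + 1) + Us s (k + 2))) ∧
    (∀ k, |Us s k| ≤ 2 * 5 ^ (e + 2) / 5 ^ k) ∧ ∀ k < e + 2, 0 < sg (sext s k) * Us s k :=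
  (exists_U (e + 2) (sext s)).choose_spec

noncomputable def us (D B m : ℕ) (Λ : ℝ) (w : Fin (e + 3) → ℝ) (s : Fin (e + 2) → Bool) :
    Fin (e + 3) → ℝ := w + PhiInv D B m (Λ • uvec e (Us s))

theorem us_injective (h : Par e K D B H) (m : ℕ) {Λ : ℝ} (hΛ : 0 < Λ) (w : Fin (e + 3) → ℝ) :
    Function.Injective (us (e := e) D B m Λ w) := by
  intro s s' hs
  have h1 : PhiInv D B m (Λ • uvec e (Us s)) = PhiInv D B m (Λ • uvec e (Us s')) :=
    add_left_cancel hs
  have h2 := congrArg (Phi D B m) h1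
  rw [Phi_PhiInv_self h.D_pos, Phi_PhiInv_self h.D_pos] at h2
  have h3 : uvec e (Us s) = uvec e (Us s') := smul_right_injective _ hΛ.ne' h2
  have h4 : ∀ k, Us s k = Us s' k := by
    intro k
    have h5 : cX (uvec e (Us s)) k = cX (uvec e (Us s')) k := by rw [h3]
    rw [cX_uvec _ _ (Us_spec s).1, cX_uvec _ _ (Us_spec s').1] at h5
    linarith
  ext i
  have h5 := (Us_spec s).2.2.2 i i.2
  have h6 := (Us_spec s').2.2.2 i i.2
  rw [← h4 i] at h6
  have h7 : sext s i = s i := by simp [sext]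
  have h8 : sext s' i = s' i := by simp [sext]
  rw [h7] at h5
  rw [h8] at h6
  cases hsi : s i <;> cases hsi' : s' i <;> rw [hsi] at h5 <;> rw [hsi'] at h6 <;>
    simp only [sg, cond_true, cond_false] at h5 h6 <;> first | rfl | (exfalso; linarith)

theorem us_mem (h : Par e K D B H) (w : Fin (e + 3) → ℝ) {j : ℕ} (hj : j < K)
    (s : Fin (e + 2) → Bool) : us D B (K - 1 - j) ((H : ℝ) ^ j) w s ∈
      QQ D B H K w j ∩ LW D B (K - 1 - j) ((H : ℝ) ^ j) w := by
  obtain ⟨h1, h2, h3, h4⟩ := Us_spec s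
  have hH := h.H_gt
  have hG := GG_pos e
  have hD1 := h.D_ge
  have hΛ : (0 : ℝ) < (H : ℝ) ^ j := by positivity
  constructor
  · have hw : w ∈ QQ D B H K w j := by
      rw [mem_QQ]
      have h0 : ∀ a : Fin (e + 3) → ℤ, dz a (w - w) = 0 := fun a => by simp [dz]
      refine ⟨fun i => (h0 _).le, fun i _ r => ?_⟩
      rw [h0]
      have h1 : (1 : ℝ) ≤ rhs e r := by exact_mod_cast rhs_pos r
      positivity
    refine rec_QQ hj hw fun a δ ha hδ1 hδ2 => inner_dir h ha _ δ _ ?_
    have e1 : ((H : ℝ) ^ j • uvec e (Us s)) (Fin.last _) = (H : ℝ) ^ j * (hh e + Us s 1) := by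
      simp [uvec_last]
    have e2 : ((H : ℝ) ^ j • uvec e (Us s)) 0 = (H : ℝ) ^ j * (Us s 0 + lam e) := by
      simp [uvec]
    have e3 : ∑ i : Fin (e + 1), |((H : ℝ) ^ j • uvec e (Us s)) i.succ.castSucc| =
        (H : ℝ) ^ j * ∑ i : Fin (e + 1), |Us s (i + 1)| := by
      rw [mul_sum]
      apply sum_congr rfl
      intro i _
      simp only [Pi.smul_apply, smul_eq_mul, abs_mul, abs_of_pos hΛ]
      congr 2
      unfold uvec
      rw [if_neg (by simp only [Fin.val_castSucc, Fin.val_succ]; omega), if_neg (by simp)]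
      simp
    have b0 := abs_le.1 (h3 0)
    have b1 := abs_le.1 (h3 1)
    simp only [pow_zero, div_one, pow_one] at b0 b1
    have hlam : (lam e : ℝ) = 2 * 5 ^ (e + 2) + 1 := by unfold lam; push_cast; ring
    have p5 : (0 : ℝ) < 5 ^ (e + 2) := by positivity
    set v0 := Us s 0 + lam e with hv0
    have hv1 : 1 ≤ v0 := by rw [hv0, hlam]; linarith
    rw [e1, e2, e3, abs_of_pos (by positivity)]
    have hS : ∑ i : Fin (e + 1), |Us s (i + 1)| ≤ (e + 1) * 5 ^ (e + 2) := by
      calc ∑ i : Fin (e + 1), |Us s (i + 1)| ≤ ∑ _i : Fin (e + 1), (5 : ℝ) ^ (e + 2) := by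
            apply sum_le_sum
            intro i _
            refine (h3 (i + 1)).trans ?_
            rw [div_le_iff₀ (by positivity), mul_comm]
            have : (2 : ℝ) ≤ 5 ^ ((i : ℕ) + 1) := by
              calc (2 : ℝ) ≤ 5 ^ 1 := by norm_num
                _ ≤ 5 ^ ((i : ℕ) + 1) := pow_le_pow_right₀ (by norm_num) (by omega)
            nlinarith
        _ = (e + 1) * 5 ^ (e + 2) := by simp
    have hS' : (H : ℝ) ^ j * (∑ i : Fin (e + 1), |Us s (i + 1)|) / D ^ δ ≤
        (H : ℝ) ^ j * ((e + 1) * 5 ^ (e + 2)) := by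
      have h5 : (1 : ℝ) ≤ D ^ δ := one_le_pow₀ hD1
      have h6 : 0 ≤ ∑ i : Fin (e + 1), |Us s (i + 1)| := sum_nonneg fun _ _ => abs_nonneg _
      calc _ ≤ (H : ℝ) ^ j * (∑ i : Fin (e + 1), |Us s (i + 1)|) :=
            div_le_self (by positivity) h5
        _ ≤ _ := mul_le_mul_of_nonneg_left hS hΛ.le
    have hδ : (B : ℝ) * v0 ≤ δ * B * v0 := by
      have h5 : (1 : ℝ) ≤ δ := by exact_mod_cast hδ1
      have h6 : 0 ≤ (B : ℝ) * v0 := by positivity
      nlinarith
    have hB := h.hB
    have key : hh e + Us s 1 - B * v0 + GG e * (v0 + (e + 1) * 5 ^ (e + 2)) ≤ 0 := by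
      have h5 : (B - GG e) * 1 ≤ (B - GG e) * v0 := by
        apply mul_le_mul_of_nonneg_left hv1
        have := h.B_ge
        linarith
      nlinarith
    have h7 := mul_le_mul_of_nonneg_left hS' (by linarith : (0 : ℝ) ≤ GG e)
    have h8 := mul_le_mul_of_nonneg_left hδ hΛ.le
    have h9 := mul_nonpos_of_nonneg_of_nonpos hΛ.le key
    nlinarith
  · intro r
    unfold us
    rw [add_sub_cancel_left, dz_Tm h.D_pos, Phi_PhiInv_self h.D_pos, dz_smul_right]
    apply mul_le_mul_of_nonneg_left _ (by positivity)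
    exact mul_le_mul_of_nonneg_left (feas_uvec h1 h2 h4 r) hΛ.le

theorem th_add (D B m : ℕ) (z : Fin (e + 3) → ℝ) (t : ℝ) :
    th D B m (z + t • c0 e) = th D B m z + t • c0 e := by
  ext j
  simp only [th, c0, Pi.add_apply, Pi.smul_apply, smul_eq_mul]
  rw [Pi.single_eq_of_ne (zero_ne_last (e := e)).symm]
  by_cases h1 : j = Fin.last _
  · subst h1; simp [zero_ne_last.symm]
  · by_cases h2 : j = 0
    · subst h2; simp only [h1, if_false, if_true]; ring
    · simp [h1, h2]

theorem umax (h : Par e K D B H) (w : Fin (e + 3) → ℝ) {j : ℕ} (hj : j < K)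
    {z x : Fin (e + 3) → ℝ} (hz : z ≠ 0) (hx : Optimal (QQ D B H K w j) z x) :
    ∃ t : (Fin (e + 2) → Bool) → ℝ, (∀ s, 0 < t s) ∧ ∀ s,
      UMax (QQ D B H K w j ∩ LW D B (K - 1 - j) ((H : ℝ) ^ j) w) (c0 e) z
        (us D B (K - 1 - j) ((H : ℝ) ^ j) w s) (t s) := by
  obtain ⟨hl, h0, hI⟩ := tube h hj hz hx
  set m := K - 1 - j with hm
  set θ := th D B m z with hθ
  set y : ℕ → ℝ := fun k => cX θ k / θ (Fin.last _) with hy
  have hyb : ∀ k, 1 ≤ k → k < e + 2 → |y k| ≤ 1 / 9 ^ (e + 2) := by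
    intro k h1 h2
    simp only [hy]
    rw [abs_div, abs_of_pos hl, div_le_iff₀ hl]
    unfold cX
    rw [dif_pos h2]
    have hidx : (⟨k, by omega⟩ : Fin (e + 3)) = (⟨k - 1, by omega⟩ : Fin (e + 1)).succ.castSucc :=
      Fin.ext (by simp; omega)
    rw [hidx]
    exact hI ⟨k - 1, by omega⟩
  have hex : ∀ s : Fin (e + 2) → Bool, ∃ t : ℝ, 0 < t ∧
      UMax (QQ D B H K w j ∩ LW D B m ((H : ℝ) ^ j) w) (c0 e) z
        (us D B m ((H : ℝ) ^ j) w s) t := by
    intro s
    obtain ⟨ρ, hρ1, hρ2, hv⟩ := exists_rho (e + 2) (sext s) y hyb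
    refine ⟨θ (Fin.last _) * ρ - θ 0, by nlinarith, us_mem h w hj s, ?_⟩
    intro p hp hne
    have hval : ∀ q : Fin (e + 3) → ℝ,
        (z + (θ (Fin.last _) * ρ - θ 0) • c0 e) ⬝ᵥ PhiInv D B m q =
          θ (Fin.last _) * obj ρ y q := by
      intro q
      rw [dot_PhiInv, th_add, dot_expand, ← hθ]
      have e1 : (θ + (θ (Fin.last _) * ρ - θ 0) • c0 e) (Fin.last _) = θ (Fin.last _) := by
        simp only [c0, Pi.add_apply, Pi.smul_apply]
        rw [Pi.single_eq_of_ne (zero_ne_last (e := e)).symm, smul_zero, add_zero]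
      have e2 : cX (θ + (θ (Fin.last _) * ρ - θ 0) • c0 e) 0 = θ (Fin.last _) * ρ := by
        unfold cX
        rw [dif_pos (by omega)]
        simp only [c0, Pi.add_apply, Pi.smul_apply, smul_eq_mul]
        have : (⟨0, by omega⟩ : Fin (e + 3)) = 0 := rfl
        rw [this, Pi.single_eq_same]
        ring
      have e3 : ∀ k ∈ range (e + 1),
          cX (θ + (θ (Fin.last _) * ρ - θ 0) • c0 e) (k + 1) * cX q (k + 1) =
            θ (Fin.last _) * (y (k + 1) * cX q (k + 1)) := by
        intro k hk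
        have hk' := mem_range.1 hk
        have e4 : cX (θ + (θ (Fin.last _) * ρ - θ 0) • c0 e) (k + 1) = cX θ (k + 1) := by
          unfold cX
          rw [dif_pos (by omega), dif_pos (by omega)]
          simp only [c0, Pi.add_apply, Pi.smul_apply]
          rw [Pi.single_eq_of_ne, smul_zero, add_zero]
          intro h'
          have := congrArg Fin.val h'
          simp at this
        rw [e4]
        simp only [hy]
        field_simp
      rw [e1, e2, sum_congr rfl e3, ← mul_sum]
      unfold obj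
      ring
    have hpq : p = w + PhiInv D B m (Phi D B m (p - w)) := by
      rw [PhiInv_Phi h.D_pos]; abel
    set q := Phi D B m (p - w) with hq
    rw [hpq]
    unfold us
    rw [dotProduct_add, dotProduct_add, hval, hval]
    have hst : obj ρ y q < obj ρ y ((H : ℝ) ^ j • uvec e (Us s)) := by
      refine strict hv (Us_spec s).1 (Us_spec s).2.1 _ q (fun r => ?_) ?_
      · have h5 := hp.2 r
        rw [dz_Tm h.D_pos] at h5
        have hD0 : (0 : ℝ) < D ^ m := by have := h.D_pos; positivity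
        exact le_of_mul_le_mul_left h5 hD0
      · intro h5
        apply hne
        rw [hpq, h5]
        rfl
    have := mul_lt_mul_of_pos_left hst hl
    linarith
  choose t ht0 ht using hex
  exact ⟨t, ht0, ht⟩

theorem good (h : Par e K D B H) (w : Fin (e + 3) → ℝ) {j : ℕ} (hj : j ≤ K) :
    Good (QQ D B H K w j) (c0 e) w j (2 ^ (e + 2)) := by
  induction j with
  | zero => intro k N z x hk; omega
  | succ j ih =>
    have hH := h.H_gt
    have h1 := good_succ (level h w (by omega : j < K)) (us D B (K - 1 - j) ((H : ℝ) ^ j) w)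
      (us_injective h _ (by positivity) w)
      (fun z x hz _ hx => umax h w (by omega : j < K) hz hx) (j := j) (c := c0 e) (by
        have h2 : Fintype.card (Fin (e + 2) → Bool) = 2 ^ (e + 2) := by simp
        rw [h2]
        exact ih (by omega))
    have h2 : Fintype.card (Fin (e + 2) → Bool) = 2 ^ (e + 2) := by simp
    rw [h2] at h1
    exact h1

end Pool.Agent.J4.H81.Shadow
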